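import Pool.Agent.Lib.MP_696deb_nt.CP.D0

/-! The pairing is alternating. -/

set_option autoImplicit false

open scoped Classical
open Finset Module

namespace Pool.Agent.Lib.MP_696deb_nt.CU.CP

theorem a3_plc {m : ℕ} {x : Gam → Gam → ZMod (3 ^ m)} (hx : C2 m ⊤ x) (w : Plc) :
    FF.inv m ⊤ w x = FF.inv m ⊤ (pl w.p) x := by
  obtain ⟨g, hg⟩ := B2.plc_conj (w := pl w.p) (v := w) (pl_p w.prime)
  have h := H3.CFT.inv_smul FF (m := m) (H := ⊤) isOpen_univ hx (Subgroup.mem_top g) (pl w.p)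
  rw [hg] at h
  exact h

/-- The reciprocity law at all levels. -/
theorem recip_m {m : ℕ} {x : Gam → Gam → ZMod (3 ^ m)} (hx : C2 m ⊤ x) (S : Finset ℕ)
    (hS : ∀ q ∈ S, q.Prime) (h : ∀ q : ℕ, q.Prime → q ∉ S → FF.inv m ⊤ (pl q) x = 0) :
    ∑ q ∈ S, FF.inv m ⊤ (pl q) x = 0 := by
  have e := FF.recip (m := m) (H := ⊤) (c := x) (S.image pl) isOpen_univ hx
    (fun v hv v' hv' g _ e => by
      obtain ⟨a, ha, rfl⟩ := Finset.mem_image.1 hv
      obtain ⟨b, hb, rfl⟩ := Finset.mem_image.1 hv'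
      have e' := congrArg (·.p) e
      beta_reduce at e'
      rw [B2.smul_p, pl_p (hS a ha), pl_p (hS b hb)] at e'
      rw [e'])
    fun w hw => (a3_plc hx w).trans (h _ w.prime fun k => by
      obtain ⟨g, hg⟩ := B2.plc_conj (w := pl w.p) (v := w) (pl_p w.prime)
      exact hw _ (Finset.mem_image_of_mem _ k) g trivial hg)
  rw [Finset.sum_image fun a ha b hb e => by rw [← pl_p (hS a ha), e, pl_p (hS b hb)]] at e
  exact e

/-- The embedding of the field with three elements into a cyclic group. -/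
def a3_U (m M : ℕ) (t : F3) : ZMod (3 ^ M) := 3 ^ m * (t.val : ZMod (3 ^ M))

section

variable {m M q : ℕ}

theorem a3_inc (hM : M = 1 + m) {w : Gam → Gam → F3} (hw : C2 1 (Gq q) w) :
    FF.inv M ⊤ (pl q) (fun g k => a3_U m M (w g k)) = a3_U m M (inv q w) := by
  subst hM
  exact FF.inc (m := 1) m e2_op (e2_top hw)

theorem a3_sum (hM : M = 1 + m) (S : Finset ℕ) (t : ℕ → F3)
    (h : ∑ q ∈ S, a3_U m M (t q) = 0) : ∑ q ∈ S, t q = 0 := by
  subst hM
  exact H3.up_eq_zero.1 ((H3.up_sum m S t).trans h)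

theorem a3_sub (hM : M = 1 + m) (a b : F3) : a3_U m M (a - b) = a3_U m M a - a3_U m M b := by
  subst hM
  have h : a3_U m (1 + m) (a - b + b) = a3_U m (1 + m) (a - b) + a3_U m (1 + m) b :=
    H3.up_add m (a - b : F3) b
  rw [sub_add_cancel] at h
  exact eq_sub_of_add_eq h.symm

theorem a3_mul (hM : M = 1 + m) (a b : F3) : a3_U m M (a * b) = a.val * a3_U m M b := by
  subst hM
  rw [← nsmul_eq_mul]
  exact H3.up_mul m a b

theorem a3_wm (m : ℕ) : ∃ ε : F3, ε ≠ 0 ∧ ∀ (x : A) (a b : F3), th ^ (2 * m + 1) • x = kT b →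
    wm (m + 1) (kT a) x = a3_U m (m + 1) (ε * (a * b)) := by
  obtain ⟨ε, h0, h⟩ := wm_T m
  refine ⟨ε, h0, fun x a b hx => ?_⟩
  have hT : 3 ^ (m + 1) • T = 0 := by rw [pow_succ, mul_smul, three_T, smul_zero]
  rw [mul_left_comm, a3_mul (add_comm m 1)]
  exact (wm_nsmul hT a.val x).trans (congrArg _ (h x b hx))

theorem a3_w {u k : Gam → F3} (hu : Kc 0 (Gq q) u) (hk : Kc 1 (Gq q) k) (a : F3) :
    C2 1 (Gq q) (fun g h => (a * (u g * chi g * k h) + -a * (k g * u h) : F3)) ∧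
      inv q (fun g h => a * (u g * chi g * k h) + -a * (k g * u h)) = 2 * a * lp q u k := by
  have h1 : C2 1 (Gq q) fun g h => (k g * u h : F3) :=
    ⟨hk.1.left.comp₂ hu.1.right (· * ·), fun a ha b hb c hc => by
      change chi a * (k b * u c) + k a * u (b * c) = k (a * b) * u c + k a * u b
      rw [hu.2 b hb c hc, hk.2 a ha b hb]
      ring⟩
  have h2 := c2_lp hu hk
  refine ⟨(h2.smul a).add (h1.smul (-a : F3)), ?_⟩
  have h3 := inv_add (h2.smul a) (h1.smul (-a : F3))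
  have h4 : inv q (fun g h => a * (u g * chi g * k h)) = a * lp q u k := inv_smul h2 a
  have h5 : inv q (fun g h => -a * (k g * u h)) = -a * inv q fun g h => k g * u h :=
    inv_smul h1 (-a)
  refine h3.trans ((congrArg₂ (· + ·) h4 h5).trans ?_)
  rw [inv_flip hu hk]
  ring

end

section

variable {n e m q : ℕ} {c : Gam → A}

variable (n e m c) in
/-- The cup square of a cocycle under the Weil pairing. -/
noncomputable def a3_z (g h : Gam) : ZMod (3 ^ m) := wm m (c g) (act n e g (c h))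

theorem a3_c2 (hc : Coc ⊤ (act n e) c) (hl : ∀ g, 3 ^ m • c g = 0) : C2 m ⊤ (a3_z n e m c) := by
  have h1 : ∀ g h, 3 ^ m • act n e g (c h) = 0 := fun g h => by rw [← map_nsmul, hl, map_zero]
  refine ⟨hc.1.left.comp₂ (e7a_sm2 hc.1) (wm m), fun g _ h _ k _ => ?_⟩
  simp only [a3_z]
  rw [hc.2 h trivial k trivial, hc.2 g trivial h trivial, map_add, ← act_mul,
    wm_add_right _ (h1 g h) (h1 _ k), wm_add_left (hl g) (h1 g h), act_mul,
    wm_act n e g (hl h) (h1 h k)]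
  ring

theorem a3_unr (hc : Coc ⊤ (act n e) c) (hl : ∀ g, 3 ^ m • c g = 0) (hq : q.Prime)
    (hd : ¬ q ∣ 3 * n) (hs : c (sq q) = 0) : FF.inv m ⊤ (pl q) (a3_z n e m c) = 0 := by
  have h3 : q ≠ 3 := fun k => hd (k ▸ dvd_mul_right 3 n)
  have hn : ¬ q ∣ n := fun k => hd (k.mul_left 3)
  have hk : ∀ g, th ^ (2 * m) • c g = 0 := fun g => (three_pow_iff m _).1 (hl g)
  have h4 : ∀ x ∈ Iq q, ∀ g, c (g * x) = c g := fun x hx g => by
    rw [hc.2 g trivial x trivial,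
      det_ine hq h3 ⟨hc.1.mono le_top, fun a _ b _ => hc.2 a trivial b trivial⟩
        (fun a _ => hk a) hs hx, map_zero, add_zero]
  refine FF.unr e2_op ((a3_c2 hc hl).mono inf_le_left) fun g _ h _ x hx y hy => ?_
  rw [a3_z, a3_z, h4 x hx.2, h4 y hy.2, act_mul, act_ine hq h3 hx.2 (hk h),
    kk_ine hq h3 hn hx.2, un_zero, one_smul]

theorem a3_loc (hn : n ≠ 0) (hq : q.Prime) (hc : Coc ⊤ (act n e) c)
    (hl : ∀ g, th ^ (2 * m + 2) • c g = 0) {u : Gam → F3} (hu : Loc n e q (c - kC u)) {ε : F3}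
    (hε : ∀ (x : A) (a b : F3), th ^ (2 * m + 1) • x = kT b →
      wm (m + 1) (kT a) x = a3_U m (m + 1) (ε * (a * b)))
    {w : Gam → Gam → F3} (hw : C2 1 (Gq q) w)
    (ew : ∀ g h, w g h = ε * (u g * (chi g ^ (e + (2 * m + 1)) * tp (2 * m + 1) c h)) -
      ε * (chi g ^ e * u h * tp (2 * m + 1) c g)) :
    FF.inv (m + 1) ⊤ (pl q) (a3_z n e (m + 1) c) = a3_U m (m + 1) (inv q w) := by
  obtain ⟨P, hP⟩ := hu
  have h0 : ∀ g, 3 ^ (m + 1) • c g = 0 := fun g => (three_pow_iff (m + 1) _).2 (hl g)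
  have hb : ∀ g, th ^ (2 * m + 1) • c g = kT (tp (2 * m + 1) c g) := fun g =>
    (kT_dg (by rw [← mul_smul, ← pow_succ', hl])).symm
  have hT : ∀ a, th ^ (2 * m + 1) • kT a = 0 := fun a => by
    rw [pow_succ, mul_smul, th_kT, smul_zero]
  have hT' : ∀ a, 3 ^ (m + 1) • kT a = 0 := fun a => (three_pow_iff (m + 1) _).2 (by
    rw [mul_add, mul_one, pow_succ, mul_smul, th_kT, smul_zero])
  have h1 : ∀ g ∈ Gq q, c g = cob (act n e) P g + kT (u g) := fun g hg =>
    sub_eq_iff_eq_add.1 (hP g hg)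
  have h2 : ∀ g ∈ Gq q, 3 ^ (m + 1) • cob (act n e) P g = 0 := fun g hg => by
    have := h0 g
    rwa [h1 g hg, smul_add, hT', add_zero] at this
  have h3 : ∀ g ∈ Gq q, th ^ (2 * m + 1) • cob (act n e) P g = kT (tp (2 * m + 1) c g) :=
    fun g hg => by rw [← hb, h1 g hg, smul_add, hT, add_zero]
  have s1 := wm_iso hn hq h2 h2
  have c1 : C2 (m + 1) (⊤ ⊓ Dec (pl q)) _ := (H3.Spl.c2 s1).mono inf_le_right
  have c0 : C2 (m + 1) (⊤ ⊓ Dec (pl q)) _ := (a3_c2 hc h0).mono inf_le_left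
  have i1 := FF.add e2_op c0 (c1.smul (-1))
  rw [FF.smul e2_op c1, (FF.zero_iff e2_op c1).2 (by rw [top_inf_eq]; exact s1), mul_zero,
    add_zero] at i1
  rw [← i1, ← a3_inc (add_comm m 1) hw]
  refine FF.congr fun g hg h hh => ?_
  have e1 : wm (m + 1) (kT (u g)) (act n e g (c h)) = _ := hε _ _ _ (by
    rw [← act_th_pow, hb, act_kT])
  have e2 : wm (m + 1) (kT (chi g ^ e * u h)) (cob (act n e) P g) = _ := hε _ _ _ (h3 g hg.2)
  have e3 : wm (m + 1) (cob (act n e) P g) (act n e g (c h)) =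
      wm (m + 1) (cob (act n e) P g) (act n e g (cob (act n e) P h)) -
        wm (m + 1) (kT (chi g ^ e * u h)) (cob (act n e) P g) := by
    rw [h1 h hh.2, map_add, act_kT,
      wm_add_right _ (by rw [← map_nsmul, h2 h hh.2, map_zero]) (hT' _), wm_skew _ (kT _),
      sub_eq_add_neg]
  have e4 : a3_z n e (m + 1) c g h = wm (m + 1) (cob (act n e) P g) (act n e g (c h)) +
      wm (m + 1) (kT (u g)) (act n e g (c h)) := by
    rw [← wm_add_left (h2 g hg.2) (hT' _), ← h1 g hg.2, a3_z]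
  rw [Pi.add_apply, Pi.add_apply, e4, e3, e1, e2, ew, a3_sub (add_comm m 1)]
  ring

end

theorem Lf.alt {n m : ℕ} {j : Bool} {c : Gam → A} {u : ℕ → Gam → F3} (hn : n ≠ 0)
    (h : Lf n (!j) c u) (hl : ∀ g, th ^ (2 * m + 2) • c g = 0) :
    pr n j u (tp (2 * m + 1) c) = 0 := by
  obtain ⟨ε, h0, hε⟩ := a3_wm m
  have h3 : ∀ g, 3 ^ (m + 1) • c g = 0 := fun g => (three_pow_iff (m + 1) _).2 (hl g)
  have hb : Kc (sd (!j) + (2 * m + 1)) ⊤ (tp (2 * m + 1) c) := by
    have e : th ^ (2 * m + 1) • c = kC (tp (2 * m + 1) c) := funext fun g =>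
      (kT_dg (by rw [Pi.smul_apply, ← mul_smul, ← pow_succ', hl])).symm
    exact (coc_kC (n := n)).1 (e ▸ coc_th_pow h.coc (2 * m + 1))
  have hp : ∀ g, chi g ^ (2 * m) = 1 := fun g => by rw [pow_mul, pow_two, chi_sq, one_pow]
  have key : ∀ a : F3, a ≠ 0 → (∀ q : ℕ, q.Prime → q ∣ 3 * n →
      FF.inv (m + 1) ⊤ (pl q) (a3_z n (sd (!j)) (m + 1) c) =
        a3_U m (m + 1) (2 * a * lq j q (u q) (tp (2 * m + 1) c))) →
      pr n j u (tp (2 * m + 1) c) = 0 := fun a ha k => by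
    have r := recip_m (a3_c2 h.coc h3) (3 * n).primeFactors
      (fun q hq => Nat.prime_of_mem_primeFactors hq) fun q hq k' =>
        have hd : ¬ q ∣ 3 * n := fun d =>
          k' (Nat.mem_primeFactors.2 ⟨hq, d, mul_ne_zero three_ne_zero hn⟩)
        a3_unr h.coc h3 hq hd (h.unr q hq hd)
    rw [sum_congr rfl fun q hq =>
      k q (Nat.prime_of_mem_primeFactors hq) (Nat.dvd_of_mem_primeFactors hq)] at r
    have r' := a3_sum (add_comm m 1) _ _ r
    rw [← mul_sum] at r'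
    exact (mul_eq_zero.1 r').resolve_left (mul_ne_zero (by decide) ha)
  cases j
  · have hb' : Kc 1 ⊤ (tp (2 * m + 1) c) := by
      have := kc_mod.2 hb
      rwa [show (sd (!false) + (2 * m + 1)) % 2 = 1 by simp [sd]] at this
    refine key ε h0 fun q hq hd => ?_
    obtain ⟨w1, w2⟩ := a3_w (h.kc q hq hd) (hb'.mono le_top) ε
    refine (a3_loc hn hq h.coc hl (h.loc q hq hd) hε w1 fun g k => ?_).trans (congrArg _ w2)
    rw [show sd (!false) = 0 from rfl, zero_add, pow_succ, hp]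
    ring
  · have hb' : Kc 0 ⊤ (tp (2 * m + 1) c) := by
      have := kc_mod.2 hb
      rwa [show (sd (!true) + (2 * m + 1)) % 2 = 0 by simp [sd]; omega] at this
    refine key (-ε) (neg_ne_zero.2 h0) fun q hq hd => ?_
    obtain ⟨w1, w2⟩ := a3_w (hb'.mono le_top) (h.kc q hq hd) (-ε)
    refine (a3_loc hn hq h.coc hl (h.loc q hq hd) hε w1 fun g k => ?_).trans (congrArg _ w2)
    rw [show sd (!true) = 1 from rfl, pow_add, pow_succ _ (2 * m), hp, one_mul, pow_one, chi_sq]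
    ring

end Pool.Agent.Lib.MP_696deb_nt.CU.CP
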