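import Pool.Agent.Lib.MP_696deb_nt.CP.D0

/-! The algebra of the descent. -/

set_option autoImplicit false

open scoped Classical
open Finset Module

namespace Pool.Agent.Lib.MP_696deb_nt.CU.CP

theorem a4_det {n : ℕ} (N : Matrix (Fin n) (Fin n) F3) (hs : ∀ i j, N i j = -N j i) (hn : Odd n) :
    N.det = 0 := by
  have h1 : N.transpose = -N := Matrix.ext fun i j => hs j i
  have h2 := congrArg Matrix.det h1
  rw [Matrix.det_transpose, Matrix.det_neg, Fintype.card_fin, hn.neg_one_pow] at h2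
  generalize N.det = x at h2
  revert x
  decide

/-- An alternating form has even rank. -/
theorem even_of_alt {V : Type} [AddCommGroup V] [Module F3 V] [Module.Finite F3 V]
    (B : V →ₗ[F3] V →ₗ[F3] F3) (h : ∀ x, B x x = 0) (R : Submodule F3 V)
    (hR : ∀ y, y ∈ R ↔ ∀ x, B x y = 0) : Even (finrank F3 V + finrank F3 R) := by
  have hs : ∀ x y, B x y = -B y x := fun x y => by
    have := h (x + y)
    simp only [map_add, LinearMap.add_apply, h, zero_add, add_zero] at this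
    exact eq_neg_of_add_eq_zero_right this
  obtain ⟨W, hW⟩ := R.exists_isCompl
  rw [← Submodule.finrank_add_eq_of_isCompl hW, add_right_comm]
  refine Even.add ⟨_, rfl⟩ (Nat.not_odd_iff_even.1 fun hn => ?_)
  let b := Module.finBasis F3 W
  obtain ⟨v, hv, h0⟩ := Matrix.exists_mulVec_eq_zero_iff.2
    (a4_det (Matrix.of fun i j => B (b i) (b j)) (fun i j => hs _ _) hn)
  have h1 : ∀ w : W, B w (b.equivFun.symm v) = 0 := fun w => by
    have : (B.flip (b.equivFun.symm v)).comp W.subtype = 0 := b.ext fun i => by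
      simpa [Matrix.mulVec, dotProduct, mul_comm] using congrFun h0 i
    exact LinearMap.congr_fun this w
  have h2 : (b.equivFun.symm v : V) ∈ R := (hR _).2 fun x => by
    obtain ⟨r, hr, w, hw, rfl⟩ := Submodule.mem_sup.1 (hW.sup_eq_top ▸ Submodule.mem_top (x := x))
    rw [map_add, LinearMap.add_apply, hs r, (hR r).1 hr, neg_zero, zero_add]
    exact h1 ⟨w, hw⟩
  exact hv (b.equivFun.symm.map_eq_zero_iff.1
    (Subtype.ext (Submodule.disjoint_def.1 hW.disjoint _ h2 (b.equivFun.symm v).2)))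

theorem a4_count {G U V : Type} [AddCommGroup G] [AddCommGroup U] [AddCommGroup V] (f : G →+ U)
    (g : G →+ V) : Nat.card f.range * Nat.card (f.ker.map g) =
      Nat.card g.range * Nat.card (g.ker.map f) := by
  simp only [← AddSubgroup.index_ker, ← AddSubgroup.relIndex_ker]
  rw [mul_comm, ← AddSubgroup.inf_relIndex_right, AddSubgroup.relIndex_mul_index inf_le_right,
    mul_comm, ← AddSubgroup.inf_relIndex_right, AddSubgroup.relIndex_mul_index inf_le_right,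
    inf_comm]

theorem a4_card {V : Type} [AddCommGroup V] [Module F3 V] [Finite V] :
    Nat.card V = 3 ^ finrank F3 V := by
  rw [Module.natCard_eq_pow_finrank (K := F3), Nat.card_zmod]

namespace Fil

variable {X Y : Type} [AddCommGroup X] [AddCommGroup Y] [Module F3 Y]

variable (Φ : Fil X Y)

/-- The top digit as a homomorphism. -/
def T (j : Bool) (n : ℕ) : Φ.Z j (n + 1) →+ Y :=
  AddMonoidHom.mk' (fun x => Φ.tp n x) fun x y => Φ.tp_add j n _ x.2 _ y.2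

/-- The pairing as a homomorphism. -/
def C (j : Bool) (n : ℕ) : Φ.Z j n →+ Dual F3 (Φ.Sel j) :=
  AddMonoidHom.mk' (fun x => AddMonoidHom.toZModLinearMap 3
    (AddMonoidHom.mk' (fun b => Φ.ct j x b) fun b b' => Φ.ct_add' j n _ x.2 _ b.2 _ b'.2))
    fun x y => LinearMap.ext fun b => Φ.ct_add j n _ x.2 _ y.2 _ b.2

/-- The space of top digits. -/
def I (j : Bool) (n : ℕ) : Submodule F3 Y := AddSubgroup.toZModSubmodule 3 (Φ.T j n).range

/-- The space of functionals. -/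
def W (j : Bool) (n : ℕ) : Submodule F3 (Dual F3 (Φ.Sel j)) :=
  AddSubgroup.toZModSubmodule 3 (Φ.C j n).range

variable {Φ}

theorem mem_I {j : Bool} {n : ℕ} {b : Y} : b ∈ Φ.I j n ↔ ∃ x ∈ Φ.Z j (n + 1), Φ.tp n x = b :=
  ⟨fun ⟨x, h⟩ => ⟨x, x.2, h⟩, fun ⟨x, h1, h⟩ => ⟨⟨x, h1⟩, h⟩⟩

theorem C_zero {j : Bool} {n : ℕ} {x : Φ.Z j n} :
    Φ.C j n x = 0 ↔ ∃ y ∈ Φ.Z (!j) (n + 1), Φ.om j y = x :=
  Iff.trans ⟨fun h b hb => LinearMap.congr_fun h ⟨b, hb⟩, fun h => LinearMap.ext fun b => h b b.2⟩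
    (Φ.ct_ker j n x x.2)

theorem ct_zero {j : Bool} {n : ℕ} {x : X} (hx : x ∈ Φ.Z j n) : Φ.ct j x 0 = 0 :=
  map_zero (Φ.C j n ⟨x, hx⟩)

variable (Φ)

theorem I_zero (j : Bool) : Φ.I j 0 = Φ.Sel j :=
  le_antisymm (fun _ ⟨x, h⟩ => h ▸ Φ.tp_sel j x x.2) fun b hb => mem_I.2 (Φ.tp_surj j b hb)

theorem I_succ (j : Bool) (n : ℕ) : Φ.I (!j) (n + 1) ≤ Φ.I j n := fun _ ⟨x, h⟩ =>
  mem_I.2 ⟨_, Φ.om_mem j (n + 1) x x.2, (Φ.om_tp j n x x.2).trans h⟩

theorem I_even (j : Bool) (m : ℕ) : Φ.I j (2 * m) ≤ Φ.Sel j := by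
  induction m with
  | zero => exact (Φ.I_zero j).le
  | succ m ih =>
    have := Φ.I_succ (!j) (2 * m + 1)
    rw [Bool.not_not] at this
    exact this.trans ((Φ.I_succ j _).trans ih)

theorem I_odd (j : Bool) (m : ℕ) : Φ.I (!j) (2 * m + 1) ≤ Φ.Sel j :=
  (Φ.I_succ j _).trans (Φ.I_even j m)

instance (j : Bool) : Finite (Φ.Sel j) := Φ.fin j

instance (j : Bool) (n : ℕ) : Finite (Φ.I j n) := by
  obtain ⟨m, rfl | rfl⟩ := Nat.even_or_odd' n
  · exact Finite.of_injective _ (Submodule.inclusion_injective (Φ.I_even j m))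
  · have := Φ.I_odd (!j) m
    rw [Bool.not_not] at this
    exact Finite.of_injective _ (Submodule.inclusion_injective this)

instance (j : Bool) : Finite (Dual F3 (Φ.Sel j)) := Module.finite_of_finite F3

/-- Dimension of the space of top digits. -/
noncomputable abbrev d (j : Bool) (n : ℕ) : ℕ := finrank F3 (Φ.I j n)

/-- Dimension of the space of functionals. -/
noncomputable abbrev w (j : Bool) (n : ℕ) : ℕ := finrank F3 (Φ.W j n)

theorem card_succ (j : Bool) (n : ℕ) :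
    Nat.card (Φ.Z j (n + 1)) = 3 ^ Φ.d j n * Nat.card (Φ.Z j n) := by
  have h : (Φ.T j n).ker = (Φ.Z j n).addSubgroupOf (Φ.Z j (n + 1)) :=
    AddSubgroup.ext fun x => Φ.tp_zero j n x x.2
  rw [← (Φ.T j n).ker.index_mul_card, AddSubgroup.index_ker, h,
    Nat.card_congr (AddSubgroup.addSubgroupOfEquivOfLe (Φ.Z_mono j n)).toEquiv, ← a4_card]
  rfl

theorem card_zero (j : Bool) : Nat.card (Φ.Z j 0) = 1 := by
  rw [(AddSubgroup.eq_bot_iff_forall _).2 (Φ.Z_zero j), AddSubgroup.card_bot]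

theorem step (j : Bool) (n : ℕ) : Φ.d j n + Φ.w j n = Φ.w j (n + 1) + Φ.d (!j) (n + 1) := by
  have h1 : (Φ.T j n).ker.map (Φ.C j (n + 1)) = (Φ.C j n).range := by
    ext f
    exact ⟨fun ⟨x, hx, h⟩ => ⟨⟨x, (Φ.tp_zero j n x x.2).1 hx⟩, h⟩,
      fun ⟨x, h⟩ => ⟨⟨x, Φ.Z_mono j n x.2⟩, (Φ.tp_zero j n x (Φ.Z_mono j n x.2)).2 x.2, h⟩⟩
  have h2 : (Φ.C j (n + 1)).ker.map (Φ.T j n) = (Φ.T (!j) (n + 1)).range := by
    ext b
    refine ⟨fun ⟨x, hx, h⟩ => ?_, fun ⟨y, h⟩ => ⟨⟨_, Φ.om_mem j (n + 1) y y.2⟩,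
      C_zero.2 ⟨y, y.2, rfl⟩, (Φ.om_tp j n y y.2).trans h⟩⟩
    obtain ⟨y, hy, e⟩ := C_zero.1 hx
    exact ⟨⟨y, hy⟩, (Φ.om_tp j n y hy).symm.trans ((congrArg (Φ.tp n) e).trans h)⟩
  have h3 := a4_count (Φ.T j n) (Φ.C j (n + 1))
  rw [h1, h2] at h3
  refine Nat.pow_right_injective (show 2 ≤ 3 by decide) ?_
  simp only [pow_add, ← a4_card]
  exact h3

theorem w_zero (j : Bool) : Φ.w j 0 = 0 :=
  Submodule.finrank_eq_zero.2 ((Submodule.eq_bot_iff _).2 fun _ ⟨x, h⟩ => by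
    rw [← h, show x = 0 from Subtype.ext (Φ.Z_zero j x x.2), map_zero])

theorem total (n : ℕ) : Φ.d false n + Φ.d true n + Φ.w false n + Φ.w true n =
    finrank F3 (Φ.Sel false) + finrank F3 (Φ.Sel true) := by
  induction n with
  | zero => rw [w_zero, w_zero, d, d, I_zero, I_zero, add_zero, add_zero]
  | succ n ih =>
    have h1 := Φ.step false n
    have h2 := Φ.step true n
    simp only [Bool.not_true, Bool.not_false] at h1 h2
    omega

theorem sym {j : Bool} {m : ℕ} {x y : X} (hx : x ∈ Φ.Z j (2 * m + 1))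
    (hy : y ∈ Φ.Z j (2 * m + 1)) : Φ.ct j x (Φ.tp (2 * m) y) = -Φ.ct j y (Φ.tp (2 * m) x) := by
  have h := Φ.alt j m
  have hs : ∀ x ∈ Φ.Z j (2 * m + 1), Φ.tp (2 * m) x ∈ Φ.Sel j := fun x hx =>
    Φ.I_even j m (mem_I.2 ⟨x, hx, rfl⟩)
  have h1 := h _ (add_mem hx hy)
  rw [Φ.ct_add j _ x hx y hy _ (hs _ (add_mem hx hy)), Φ.tp_add j _ x hx y hy,
    Φ.ct_add' j _ x hx _ (hs x hx) _ (hs y hy), Φ.ct_add' j _ y hy _ (hs x hx) _ (hs y hy),
    h x hx, h y hy] at h1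
  linear_combination h1

theorem kill_even {j : Bool} {m : ℕ} {b : Y} (hb : b ∈ Φ.I j (2 * m)) {x : X}
    (hx : x ∈ Φ.Z j (2 * m)) : Φ.ct j x b = 0 := by
  obtain ⟨e, he, rfl⟩ := mem_I.1 hb
  rw [Φ.sym (Φ.Z_mono j _ hx) he, (Φ.tp_zero j _ x (Φ.Z_mono j _ hx)).2 hx, ct_zero he, neg_zero]

theorem kill_odd {j : Bool} {m : ℕ} {b : Y} (hb : b ∈ Φ.I (!j) (2 * m + 1)) {x : X}
    (hx : x ∈ Φ.Z j (2 * m + 1)) : Φ.ct j x b = 0 := by
  obtain ⟨e, he, rfl⟩ := mem_I.1 hb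
  rw [← Φ.om_tp j _ e he, Φ.sym hx (Φ.om_mem j _ e he), neg_eq_zero]
  exact (Φ.ct_ker j _ _ (Φ.om_mem j _ e he)).2 ⟨e, he, rfl⟩ _ (Φ.I_even j m (mem_I.2 ⟨x, hx, rfl⟩))

theorem kr {j : Bool} {n : ℕ} {A : Submodule F3 Y} (hA : A ≤ Φ.Sel j)
    (h : ∀ b ∈ A, ∀ x ∈ Φ.Z j n, Φ.ct j x b = 0) :
    finrank F3 A + Φ.w j n ≤ finrank F3 (Φ.Sel j) ∧
      (finrank F3 A + Φ.w j n = finrank F3 (Φ.Sel j) →
        ∀ b ∈ Φ.Sel j, (∀ x ∈ Φ.Z j n, Φ.ct j x b = 0) → b ∈ A) := by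
  have h1 := Subspace.finrank_add_finrank_dualCoannihilator_eq (Φ.W j n)
  have h2 : A.comap (Φ.Sel j).subtype ≤ (Φ.W j n).dualCoannihilator := fun b hb =>
    (Submodule.mem_dualCoannihilator _).2 fun _ ⟨x, hx⟩ => hx ▸ h b hb x x.2
  have h3 := (Submodule.comapSubtypeEquivOfLe hA).finrank_eq
  have h4 := Submodule.finrank_mono h2
  refine ⟨by unfold w; omega, fun e b hb h5 => ?_⟩
  exact (Submodule.eq_of_le_of_finrank_eq h2 (by unfold w at e; omega)).ge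
    ((Submodule.mem_dualCoannihilator ⟨b, hb⟩).2 fun _ ⟨x, hx⟩ => hx ▸ h5 x x.2)

theorem eq_even (j : Bool) (m : ℕ) :
    Φ.d j (2 * m) + Φ.w j (2 * m) = finrank F3 (Φ.Sel j) := by
  have h := fun j => (Φ.kr (Φ.I_even j m) fun b hb x hx => Φ.kill_even hb hx).1
  have h1 := h false
  have h2 := h true
  have h3 := Φ.total (2 * m)
  unfold d at *
  cases j <;> omega

theorem eq_odd (j : Bool) (m : ℕ) :
    Φ.d (!j) (2 * m + 1) + Φ.w j (2 * m + 1) = finrank F3 (Φ.Sel j) := by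
  have h := fun j => (Φ.kr (Φ.I_odd j m) fun b hb x hx => Φ.kill_odd hb hx).1
  have h1 : Φ.d true (2 * m + 1) + _ ≤ _ := h false
  have h2 : Φ.d false (2 * m + 1) + _ ≤ _ := h true
  have h3 := Φ.total (2 * m + 1)
  cases j <;> simp only [Bool.not_true, Bool.not_false] <;> omega

theorem drop_even (j : Bool) (m : ℕ) : Even (Φ.d j (2 * m) + Φ.d (!j) (2 * m + 1)) := by
  choose c hc e using fun b : Φ.I j (2 * m) => mem_I.1 b.2
  have hS := Φ.I_even j m
  have key : ∀ x ∈ Φ.Z j (2 * m + 1), ∀ b b' : Φ.I j (2 * m), Φ.tp (2 * m) x = b →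
      Φ.ct j (c b) b' = Φ.ct j x b' := fun x hx b b' h => by
    rw [← e b', Φ.sym (hc b) (hc b'), Φ.sym hx (hc b'), e, h]
  let B : Φ.I j (2 * m) →ₗ[F3] Φ.I j (2 * m) →ₗ[F3] F3 :=
    AddMonoidHom.toZModLinearMap 3 (AddMonoidHom.mk'
      (fun b => (Φ.C j _ ⟨c b, hc b⟩).comp (Submodule.inclusion hS)) fun a b =>
        LinearMap.ext fun b' => (key _ (add_mem (hc a) (hc b)) (a + b) b' (by
          rw [Φ.tp_add j _ _ (hc a) _ (hc b), e, e]; rfl)).trans
            (Φ.ct_add j _ _ (hc a) _ (hc b) _ (hS b'.2)))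
  have hB : ∀ a b, B a b = Φ.ct j (c a) b := fun _ _ => rfl
  rw [d, d, ← (Submodule.comapSubtypeEquivOfLe (Φ.I_succ j (2 * m))).finrank_eq]
  refine even_of_alt B (fun b => ?_) _ fun b => ⟨fun h a => Φ.kill_odd h (hc a), fun h => ?_⟩
  · rw [hB, ← e b, Φ.alt j m _ (hc b)]
  · exact (Φ.kr (Φ.I_odd j m) fun b hb x hx => Φ.kill_odd hb hx).2 (Φ.eq_odd j m) b (hS b.2)
      fun x hx => (key x hx ⟨_, mem_I.2 ⟨x, hx, rfl⟩⟩ b rfl).symm.trans (h _)

theorem parity (n : ℕ) : Even (Φ.d false n + Φ.d true n + finrank F3 (Φ.Sel false) +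
    finrank F3 (Φ.Sel true)) := by
  induction n with
  | zero => exact ⟨_, by rw [d, d, I_zero, I_zero, add_assoc]⟩
  | succ n ih =>
    obtain ⟨m, rfl | rfl⟩ := Nat.even_or_odd' n
    · have h1 := Φ.drop_even false m
      have h2 := Φ.drop_even true m
      simp only [Bool.not_true, Bool.not_false, Nat.even_iff] at h1 h2 ih ⊢
      omega
    · have h1 := Φ.step false (2 * m + 1)
      have h2 := Φ.eq_odd false m
      have h3 := Φ.eq_even false (m + 1)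
      simp only [Bool.not_false, Nat.even_iff, mul_add, mul_one] at h1 h2 h3 ih ⊢
      rw [show 2 * m + 2 = 2 * m + 1 + 1 from rfl] at h3
      omega

theorem d_le (j : Bool) (n : ℕ) : Φ.d (!j) (n + 1) ≤ Φ.d j n := Submodule.finrank_mono (Φ.I_succ j n)

end Fil

theorem Fil.par {X Y : Type} [AddCommGroup X] [AddCommGroup Y] [Module F3 Y] (Φ : Fil X Y) :
    (∀ j n, Finite (Φ.Z j n)) ∧ ∃ s C : ℕ,
    Even (s + finrank F3 (Φ.Sel false) + finrank F3 (Φ.Sel true)) ∧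
    ∀ m, 3 ^ (s * m) ≤ Nat.card (Φ.Z false (2 * m)) ∧
      Nat.card (Φ.Z false (2 * m)) ≤ C * 3 ^ (s * m) := by
  refine ⟨fun j n => Nat.finite_of_card_ne_zero ?_, ?_⟩
  · induction n with
    | zero => simp [Φ.card_zero]
    | succ n ih => rw [Φ.card_succ]; positivity
  obtain ⟨D, hD⟩ : ∃ D : ℕ → ℕ, ∀ n, D n = Φ.d false n + Φ.d true n := ⟨_, fun _ => rfl⟩
  have h1 : ∀ n, Φ.d true (n + 1) ≤ Φ.d false n := Φ.d_le false
  have h2 : ∀ n, Φ.d false (n + 1) ≤ Φ.d true n := Φ.d_le true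
  have anti : Antitone D := antitone_nat_of_succ_le fun n => by
    have := h1 n
    have := h2 n
    rw [hD, hD]
    omega
  obtain ⟨N, hN⟩ : ∃ N, ∀ n, D N ≤ D n := ⟨Function.argmin D, fun n => Function.argmin_le D n⟩
  refine ⟨D N, 3 ^ (N * D 0), hD N ▸ Φ.parity N, fun m => ?_⟩
  obtain ⟨t, e, a, b⟩ : ∃ t, Nat.card (Φ.Z false (2 * m)) = 3 ^ t ∧ D N * m ≤ t ∧
      t ≤ min m N * D 0 + D N * m := by
    induction m with
    | zero => exact ⟨0, Φ.card_zero false, by simp, by simp⟩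
    | succ m ih =>
      obtain ⟨t, e, a, b⟩ := ih
      have c1 := hN (2 * m + 1)
      have c2 := h1 (2 * m)
      have c3 := h2 (2 * m)
      have c4 := hD (2 * m)
      rw [hD (2 * m + 1)] at c1
      refine ⟨Φ.d false (2 * m + 1) + (Φ.d false (2 * m) + t), ?_, by rw [mul_add]; omega, ?_⟩
      · rw [show 2 * (m + 1) = 2 * m + 1 + 1 from rfl, Φ.card_succ, Φ.card_succ, e, pow_add,
          pow_add]
      · rcases lt_or_ge m N with h | h
        · have := anti (2 * m).zero_le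
          rw [min_eq_left h.le] at b
          rw [min_eq_left h, add_mul, mul_add]
          omega
        · have := anti (show N ≤ 2 * m by omega)
          rw [min_eq_right h] at b
          rw [min_eq_right (by omega), mul_add]
          omega
  rw [e, ← pow_add]
  exact ⟨Nat.pow_le_pow_right three_pos a, Nat.pow_le_pow_right three_pos
    (b.trans (Nat.add_le_add_right (Nat.mul_le_mul_right _ (min_le_right _ _)) _))⟩

end Pool.Agent.Lib.MP_696deb_nt.CU.CP
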