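import Pool.Agent.Lib.MP_696deb_nt.CP.A2
import Pool.Agent.Lib.MP_696deb_nt.CP.A3
import Pool.Agent.Lib.MP_696deb_nt.CP.A4

/-! The growth of the Selmer groups has the parity of the first layer. -/

set_option autoImplicit false

open scoped Classical
open Finset Module

namespace Pool.Agent.Lib.MP_696deb_nt.CU.CP

variable {n l : ℕ} {j : Bool} {x c : Gam → A} {u : ℕ → Gam → F3} {b : Gam → F3}

/-- The pairing of a Selmer cocycle with a cocycle of level one. -/
noncomputable def a5ct (n : ℕ) (j : Bool) (x : Gam → A) (b : Gam → F3) : F3 :=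
  if h : ∃ c u, Lf n (!j) c u ∧ th • c = x then pr n j h.choose_spec.choose b else 0

theorem a5_spec (hx : x ∈ Zs n (sd j) l) :
    ∃ c u, Lf n (!j) c u ∧ th • c = x ∧ ∀ b, a5ct n j x b = pr n j u b :=
  ⟨_, _, (exists_lf hx).choose_spec.choose_spec.1, (exists_lf hx).choose_spec.choose_spec.2,
    fun _ => dif_pos (exists_lf hx)⟩

theorem a5_eq (hn : n ≠ 0) (hx : x ∈ Zs n (sd j) l) (hl : Lf n (!j) c u) (hc : th • c = x)
    (hb : b ∈ Sel n j) : a5ct n j x b = pr n j u b := by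
  obtain ⟨c0, u0, l0, e0, k0⟩ := a5_spec hx
  rw [k0, ← sub_add_cancel u0 u, pr_add_left hn (l0.sub hl).kc hl.kc (Sel.kc hb),
    (l0.sub hl).pr_zero hn (by rw [smul_sub, e0, hc, sub_self]) hb, zero_add]

theorem a5_tp (l : ℕ) (c : Gam → A) : tp l (th • c) = tp (l + 1) c := funext fun g => by
  rw [tp, tp, Pi.smul_apply, ← mul_smul, ← pow_succ]

theorem a5_kT {g : Gam} (h : th ^ (l + 1) • c g = 0) : kT (tp l c g) = th ^ l • c g :=
  kT_dg (by rw [← mul_smul, ← pow_succ', h])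

theorem a5_kC (b : Gam → F3) : tp 0 (kC b) = b := funext fun g => by
  rw [tp, pow_zero, one_smul, dg_kT]

theorem a5_kil (h : th • c ∈ Zs n (sd j) l) (g : Gam) : th ^ (l + 1) • c g = 0 := by
  rw [pow_succ, mul_smul]
  exact h.kil g

/-- The descent as an abstract filtration. -/
noncomputable def a5fil (hn : n ≠ 0) (hp : Pt n) : Fil (Gam → A) (Gam → F3) where
  Z j l := Zs n (sd j) l
  Sel := Sel n
  om _ := DistribSMul.toAddMonoidHom _ th
  tp := tp
  ct := a5ct n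
  fin := finite_Sel hn
  Z_zero _ _ hx := AddSubgroup.mem_bot.1 (zs_zero n _ ▸ hx)
  Z_mono _ l := zs_mono l.le_succ
  tp_add _ _ _ hx _ hy := funext fun g => kT_inj (by
    rw [Pi.add_apply, map_add, a5_kT (hx.kil g), a5_kT (hy.kil g), a5_kT ((add_mem hx hy).kil g),
      Pi.add_apply, smul_add])
  tp_zero _ _ _ hx := ⟨fun k => zs_level hx fun g => by
    rw [← a5_kT (hx.kil g), k, Pi.zero_apply, map_zero], fun k => funext fun g => kT_inj (by
      rw [a5_kT (hx.kil g), k.kil g, Pi.zero_apply, map_zero])⟩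
  tp_sel j x hx := by
    obtain ⟨v, -, rfl⟩ := zs_one hx
    rwa [a5_kC]
  tp_surj j b hb := ⟨kC b, hb, a5_kC b⟩
  om_mem j l x hx := by
    have := zs_th hx
    rwa [zs_sd, Bool.not_not] at this
  om_tp _ l x _ := a5_tp l x
  ct_add j l x hx y hy b hb := by
    obtain ⟨c, u, h, e, k⟩ := a5_spec hx
    obtain ⟨c', u', h', e', k'⟩ := a5_spec hy
    rw [a5_eq hn (add_mem hx hy) (h.add h') (by rw [smul_add, e, e']) hb,
      pr_add_left hn h.kc h'.kc (Sel.kc hb), k, k']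
  ct_add' j l x hx b hb b' hb' := by
    obtain ⟨c, u, h, -, k⟩ := a5_spec hx
    rw [k, k, k, pr_add_right hn h.kc (Sel.kc hb) (Sel.kc hb')]
  ct_ker j l x hx := by
    constructor
    · intro h0
      obtain ⟨c, u, h, rfl, k⟩ := a5_spec hx
      exact h.ker hp (a5_kil hx) fun b hb => (k b).symm.trans (h0 b hb)
    · rintro ⟨y, hy, e⟩ b hb
      rw [a5_eq hn hx (lf_of_mem hy) e hb]
      exact (lf_of_mem (l := 0) (zero_mem _)).pr_zero hn (smul_zero _) hb
  alt j m x hx := by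
    obtain ⟨c, u, h, rfl, k⟩ := a5_spec hx
    rw [k, a5_tp]
    exact h.alt hn (a5_kil hx)

theorem par {n : ℕ} (hn : n ≠ 0) (hp : Pt n) : ∃ s : ℕ,
    Even (s + finrank F3 (Sel n false) + finrank F3 (Sel n true)) ∧ ∀ e, Gro n e ↔ s ≤ e := by
  obtain ⟨-, s, C, h4, h5⟩ := (a5fil hn hp).par
  refine ⟨s, h4, fun e => ⟨fun ⟨C', hC⟩ => by_contra fun k => ?_, fun he => ⟨C, fun m =>
    (h5 m).2.trans (Nat.mul_le_mul_left _
      (Nat.pow_le_pow_right three_pos (Nat.mul_le_mul_right _ he)))⟩⟩⟩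
  have a2 : 3 ^ ((e + 1) * C') ≤ 3 ^ (s * C') :=
    Nat.pow_le_pow_right three_pos (Nat.mul_le_mul_right _ (by omega))
  have a3 := a2.trans ((h5 C').1.trans (hC C'))
  rw [add_mul, one_mul, pow_add, mul_comm] at a3
  exact (Nat.le_of_mul_le_mul_right a3 (by positivity)).not_gt (Nat.lt_pow_self (by norm_num))

end Pool.Agent.Lib.MP_696deb_nt.CU.CP
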