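import Pool.Agent.Lib.MP_696deb_nt.CP.D0
import Pool.Agent.Lib.MP_23455a_nt.H3.L3a

/-! Cubes in the field of three-adic numbers. -/

set_option autoImplicit false

open scoped Classical
open Finset Module

namespace Pool.Agent.Lib.MP_696deb_nt.CU.CP

theorem c0_p : (pl 3).p = 3 := pl_p Nat.prime_three

theorem c0_three : (pl 3).V 3 < 1 := (H3.l3a_nine c0_p).1

theorem c0_unit {k : ℤ} (hk : ¬ 3 ∣ k) : (pl 3).V k = 1 :=
  (pl 3).V_int_eq_one.2 (by rwa [c0_p])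

theorem c0_cube {b : ℤ} (c : ℤ) (c0 : c ≠ 0) (h : 27 ∣ c ^ 3 * b - 1) :
    ∃ x : Qbar, Fx (Gq 3) x ∧ x ^ 3 = b := by
  obtain ⟨k, hk⟩ := h
  obtain ⟨h2, h3, -⟩ := H3.l3a_nine c0_p
  obtain ⟨y, y1, y2, -⟩ := H3.exists_cbrt (w := pl 3) le_rfl (a := c ^ 3 * b)
    (fun g _ => by rw [map_mul, map_pow, map_intCast, map_intCast]) (by
      have h4 : (c ^ 3 * b - 1 : Qbar) = 9 * (3 * k) := by
        have := congrArg (Int.cast : ℤ → Qbar) hk
        push_cast at this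
        rw [this]
        ring
      rw [h4, map_mul, map_mul]
      exact mul_lt_of_lt_one_right h3 (mul_lt_one_of_lt_of_le h2 ((pl 3).V_int_le k)))
  have c1 : (c : Qbar) ≠ 0 := Int.cast_ne_zero.2 c0
  refine ⟨y / c, fun g hg => by rw [map_div₀, y1 g hg, map_intCast], ?_⟩
  rw [div_pow, y2, mul_div_cancel_left₀ _ (pow_ne_zero 3 c1)]

theorem cube3 {b : ℤ} (h : b % 9 = 1 ∨ b % 9 = 8) : ∃ x : Qbar, Fx (Gq 3) x ∧ x ^ 3 = b := by
  have k : b % 27 = 1 ∨ b % 27 = 19 ∨ b % 27 = 10 ∨ b % 27 = 26 ∨ b % 27 = 8 ∨ b % 27 = 17 := by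
    omega
  rcases k with k | k | k | k | k | k
  exacts [c0_cube 1 (by norm_num) (by omega), c0_cube 4 (by norm_num) (by omega),
    c0_cube 7 (by norm_num) (by omega), c0_cube (-1) (by norm_num) (by norm_num; omega),
    c0_cube (-4) (by norm_num) (by norm_num; omega), c0_cube (-7) (by norm_num) (by norm_num; omega)]

theorem c0_le {z : Qbar} {p q k : ℤ} (h : z ^ 3 = p * z ^ 2 + q * z + k) : (pl 3).V z ≤ 1 := by
  by_contra! l
  have e : ∀ (c : ℤ) (i : ℕ), i < 3 → (pl 3).V (c * z ^ i) < (pl 3).V (z ^ 3) := fun c i hi => by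
    rw [map_mul, map_pow, map_pow]
    exact (mul_le_of_le_one_left' ((pl 3).V_int_le c)).trans_lt (pow_lt_pow_right₀ l hi)
  have := (pl 3).V.map_add_lt ((pl 3).V.map_add_lt (e p 2 (by norm_num)) (e q 1 (by norm_num)))
    (e k 0 (by norm_num))
  rw [pow_one, pow_zero, mul_one, ← h] at this
  exact lt_irrefl _ this

theorem c0_quad {z : Qbar} (h : (pl 3).V z ≤ 1) (p q k : ℤ) :
    (pl 3).V (p * z ^ 2 + q * z + k) ≤ 1 := by
  refine (pl 3).V.map_add_le ((pl 3).V.map_add_le ?_ ?_) ((pl 3).V_int_le k)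
  · rw [map_mul, map_pow]
    exact mul_le_one' ((pl 3).V_int_le p) (pow_le_one' h 2)
  · rw [map_mul]
    exact mul_le_one' ((pl 3).V_int_le q) h

theorem c0_move {z : Qbar} {e : ℕ} (he : e = 1 ∨ e = 2) (p q : ℤ) {k : ℤ} (hk : ¬ 3 ∣ k)
    (h : z ^ 3 = 3 ^ e * (p * z ^ 2 + q * z + k)) : ∃ g ∈ Iq 3, g z ≠ z := by
  have h1 : (pl 3).V z ≤ 1 := c0_le (p := 3 ^ e * p) (q := 3 ^ e * q) (k := 3 ^ e * k) (by
    push_cast
    linear_combination h)
  have h2 : (pl 3).V z < 1 := by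
    refine lt_of_le_of_ne h1 fun l => ?_
    have := congrArg (pl 3).V h
    rw [map_pow, l, one_pow, map_mul, map_pow] at this
    exact (mul_lt_one_of_lt_of_le (pow_lt_one₀ zero_le c0_three (by omega))
      (c0_quad h1 p q k)).ne' this
  have h3 : (pl 3).V (p * z ^ 2 + q * z + k) = 1 := by
    rw [← c0_unit hk]
    refine (pl 3).V.map_add_eq_of_lt_right ?_
    rw [c0_unit hk, show p * z ^ 2 + q * z = z * ((0 : ℤ) * z ^ 2 + p * z + q) by push_cast; ring,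
      map_mul]
    exact mul_lt_one_of_lt_of_le h2 (c0_quad h1 0 p q)
  refine H3.exists_ine_ne (a := 3) (b := e) three_ne_zero (by omega) ?_
  rw [← map_pow, h, map_mul, h3, mul_one, map_pow, c0_p, Nat.cast_ofNat]

/-- Inertia moves the cube roots of an integer that is not a three-adic cube. -/
theorem noncube {b : ℕ} (h : b % 9 ≠ 1 ∧ b % 9 ≠ 8 ∧ ¬ 27 ∣ b) {r : Qbar} (hr : r ^ 3 = b) :
    ∃ g ∈ Iq 3, g r ≠ r := by
  have k : ∃ k : ℤ, ¬ 3 ∣ k ∧ ((b : ℤ) = 3 * k ∨ (b : ℤ) = 9 * k ∨ (b : ℤ) = 3 * k + 1 ∨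
      (b : ℤ) = 3 * k - 1) := by
    by_cases h9 : b % 9 = 0
    · exact ⟨b / 9, by omega, by omega⟩
    · exact ⟨(b + 1) / 3, by omega, by omega⟩
  rw [← Int.cast_natCast] at hr
  obtain ⟨k, hk, e | e | e | e⟩ := k <;> rw [e] at hr <;> push_cast at hr
  · exact c0_move (.inl rfl) 0 0 hk (by push_cast; linear_combination hr)
  · exact c0_move (.inr rfl) 0 0 hk (by push_cast; linear_combination hr)
  · obtain ⟨g, h1, h2⟩ := c0_move (z := r - 1) (.inl rfl) (-1) (-1) hk (by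
      push_cast
      linear_combination hr)
    exact ⟨g, h1, fun l => h2 (by rw [map_sub, l, map_one])⟩
  · obtain ⟨g, h1, h2⟩ := c0_move (z := r + 1) (.inl rfl) 1 (-1) hk (by
      push_cast
      linear_combination hr)
    exact ⟨g, h1, fun l => h2 (by rw [map_add, l, map_one])⟩

theorem not_cb {b : ℕ} (h : b % 9 ≠ 1 ∧ b % 9 ≠ 8 ∧ ¬ 27 ∣ b) : ¬ Cb false 3 (kk b) := by
  rintro ⟨x, hx⟩
  obtain ⟨g, h1, h2⟩ := noncube h (r := rho b * zeta 1 ^ (-x).val) (by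
    rw [mul_pow, rho_cube, pow_right_comm, H3.TA.zeta_cube, one_pow, mul_one])
  refine h2 ?_
  rw [map_mul, kk_spec, e3_smul, mul_assoc, ← e3_add, hx g (B2.Ine_le _ h1), sd_false]
  congr 3
  ring

variable {a : ℤ} {y : Qbar}

theorem cyc_unr (hy : y ^ 3 - a * y ^ 2 - (a + 3) * y - 1 = 0) (ha : ¬ 3 ∣ a) :
    (∀ g ∈ Iq 3, g y = y) ∧ fq 3 y ≠ y := by
  have h1 : (pl 3).V y ≤ 1 := c0_le (p := a) (q := a + 3) (k := 1) (by
    push_cast
    linear_combination hy)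
  have h2 : ∀ c : ℤ, ¬ 3 ∣ c ^ 3 - a * c ^ 2 - (a + 3) * c - 1 → (pl 3).V (y - c) = 1 :=
    fun c hc => by
    refine le_antisymm ((pl 3).V.map_sub_le h1 ((pl 3).V_int_le c)) (not_lt.1 fun l => ?_)
    have := mul_lt_one_of_lt_of_le l (c0_quad h1 (-1) (a - c) (a + 3 + a * c - c ^ 2))
    rw [← map_mul, ← c0_unit hc] at this
    refine this.ne (congrArg _ ?_)
    push_cast
    linear_combination -hy
  have h3 := h2 0 (by norm_num)
  have h4 := h2 1 (by omega)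
  have h5 := h2 (-1) (by omega)
  refine ⟨fun g hg => ?_, fun l => ?_⟩
  · have k1 := hg.2 y h1
    have k2 := congrArg g hy
    simp only [map_sub, map_mul, map_pow, map_add, map_intCast, map_one, map_zero,
      map_ofNat] at k2
    obtain ⟨d, hd⟩ : ∃ d, g y = y + d := ⟨g y - y, by ring⟩
    rw [hd] at k2
    rw [hd, add_sub_cancel_left] at k1
    have k3 : d * (a * (y - (1 : ℤ)) + (3 * ((1 : ℤ) * y ^ 2 + (-a : ℤ) * y + (-1 : ℤ)) +
        d * (d + ((0 : ℤ) * y ^ 2 + (3 : ℤ) * y + (-a : ℤ))))) = 0 := by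
      push_cast
      linear_combination k2 - hy
    have k4 : (pl 3).V (a * (y - (1 : ℤ))) = 1 := by rw [map_mul, h4, c0_unit ha, mul_one]
    rcases mul_eq_zero.1 k3 with e | e
    · rw [hd, e, add_zero]
    · have := congrArg (pl 3).V e
      rw [(pl 3).V.map_add_eq_of_lt_left, k4, map_zero] at this
      · exact absurd this one_ne_zero
      · rw [k4]
        refine (pl 3).V.map_add_lt ?_ ?_ <;> rw [map_mul]
        · exact mul_lt_one_of_lt_of_le c0_three (c0_quad h1 _ _ _)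
        · exact mul_lt_one_of_lt_of_le k1 ((pl 3).V.map_add_le k1.le (c0_quad h1 _ _ _))
  · have k1 := (fq_frob Nat.prime_three).2 y h1
    rw [l, (pl 3).V.map_sub_swap,
      show y ^ 3 - y = (y - (0 : ℤ)) * (y - (1 : ℤ)) * (y - (-1 : ℤ)) by push_cast; ring,
      map_mul, map_mul, h3, h4, h5, mul_one, mul_one] at k1
    exact lt_irrefl _ k1

theorem cyc_ram (hy : y ^ 3 - a * y ^ 2 - (a + 3) * y - 1 = 0) (ha : a = 3 ∨ 9 ∣ a) :
    ∃ g ∈ Iq 3, g y ≠ y := by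
  obtain ⟨g, h1, h2⟩ : ∃ g ∈ Iq 3, g (y - 1) ≠ y - 1 := by
    rcases ha with rfl | ⟨c, rfl⟩
    · exact c0_move (.inr rfl) 0 1 (k := 1) (by norm_num) (by
        push_cast at hy ⊢
        linear_combination hy)
    · exact c0_move (.inl rfl) (3 * c - 1) (9 * c) (k := 6 * c + 1) (by omega) (by
        push_cast at hy ⊢
        linear_combination hy)
  exact ⟨g, h1, fun l => h2 (by rw [map_sub, l, map_one])⟩

/-- The logarithm on the units modulo nine. -/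
def c0Log (u : ZMod (3 ^ 2)) : F3 := ((u ^ 2).val / 3 : ℕ)

theorem c0_log_mul : ∀ u v : ZMod (3 ^ 2), IsUnit u → IsUnit v →
    c0Log (u * v) = c0Log u + c0Log v := by decide

theorem c0_log_zero : ∀ u : ZMod (3 ^ 2), IsUnit u → c0Log u = 0 → u.val = 1 ∨ u.val = 8 := by
  decide

/-- The cubic character of conductor nine. -/
theorem exists_w9 : ∃ w, Kc 0 ⊤ w ∧ (∀ q : ℕ, q.Prime → q ≠ 3 → w (sq q) = 0) ∧
    ∃ g ∈ Iq 3, w g ≠ 0 := by
  refine ⟨fun g => c0Log (cy 2 g), kc_zero.2 ⟨(H3.sm_cy 2).comp c0Log, fun g _ h _ => ?_⟩,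
    fun q hq q3 => ?_, ?_⟩
  · simp only [H3.cy_mul, c0_log_mul _ _ (H3.cy_unit 2 g) (H3.cy_unit 2 h)]
  · simp only [H3.cy_ine (m := 2) (e2a_ne hq q3) (sq_ine hq q3)]
    decide
  · have h9 : zeta 2 ^ 9 = 1 := (H3.zeta_prim 2).pow_eq_one
    have h6 := H3.zeta_one
    rw [← H3.zeta_succ_cube 1] at h6
    obtain ⟨g, h1, h2⟩ := cyc_ram (a := 0) (y := -(zeta 2 + zeta 2 ^ 8)) (by
      push_cast
      linear_combination -h6 -
        (3 * zeta 2 + 3 * zeta 2 ^ 8 + zeta 2 ^ 6 * (zeta 2 ^ 9 + 1)) * h9) (.inr (dvd_zero 9))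
    refine ⟨g, h1, fun l => h2 ?_⟩
    rw [map_neg, map_add, map_pow, H3.b1b_spec]
    rcases c0_log_zero _ (H3.cy_unit 2 g) l with e | e <;> rw [e]
    · rw [pow_one]
    · rw [← pow_mul, pow_eq_pow_mod (8 * 8) h9]
      norm_num [add_comm]

/-- The unramified character at three. -/
theorem exists_w0 : ∃ w, Kc 0 (Gq 3) w ∧ (∀ g ∈ Iq 3, w g = 0) ∧ w (fq 3) = 1 := by
  obtain ⟨w, h1, h2, h3⟩ := H3.exists_om (pl 3) 1
  refine ⟨w, kc_zero.2 ⟨h1, h2⟩, fun g hg => ?_, ?_⟩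
  · exact (h3 0 g (B2.isFrob_one.2 hg)).trans Nat.cast_zero
  · exact (h3 1 _ (by rw [pow_one]; exact H3.fr_spec _)).trans Nat.cast_one

end Pool.Agent.Lib.MP_696deb_nt.CU.CP
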