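import Pool.Agent.Lib.MP_696deb_nt.CP.D0
import Pool.Agent.Lib.MP_696deb_nt.CK.Ps

/-! Local points on the side one. -/

set_option autoImplicit false

open scoped Classical
open Finset Module

namespace Pool.Agent.Lib.MP_696deb_nt.CU.CP

open Pool.Agent.Lib.MP_23455a_nt (Co mu mu_mul mu_one exists_co)

theorem c1_cube (m : ℕ) : (zeta 1 ^ m) ^ 3 = 1 := by
  rw [pow_right_comm, H3.TA.zeta_cube, one_pow]

theorem c1_mu (i : F3) : (mu (zeta 1 ^ i.val) : A) = -kT i := by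
  have h : ∀ m : ℕ, (mu (zeta 1 ^ m) : A) = m • mu (zeta 1) := fun m => by
    induction m with
    | zero => rw [pow_zero, mu_one, zero_smul]
    | succ m ih => rw [pow_succ, mu_mul (c1_cube m) H3.TA.zeta_cube, ih, succ_nsmul]
  rw [h]
  change _ = -(i.val • T)
  rw [T_eq, smul_neg, neg_neg]

theorem c1_co (n : ℕ) (g : Gam) {P : A} {a b : Qbar} (h : Co P a b (-rho n)) :
    Co (act n 1 g P) (g a) (g b) (-rho n) := by
  have e : ((zeta 1 ^ 2) ^ (kk n g).val) ^ 3 = 1 := by rw [pow_right_comm, zsq_cube, one_pow]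
  have k := CK.co_JK e (h.map (g : Qbar →+* Qbar))
  rw [← CK.om_pow, RingHom.coe_coe, map_neg, kk_spec, mul_neg, mul_left_comm, ← mul_pow,
    ← pow_succ, H3.TA.zeta_cube, one_pow, mul_one] at k
  rwa [act_apply, one_add_one_eq_two, pow_two, ep_sq, one_smul]

theorem pts1 {n q : ℕ} (hn : n ≠ 0) {Y : ℤ} (hY : Y ≠ 0) {x : Qbar} (hx : Fx (Gq q) x)
    (h : x ^ 3 = Y * (Y + n)) : kk Y.natAbs ∈ Ll n false q := by
  have _ := hn
  obtain ⟨e, h1, h2⟩ : ∃ e : ℤ, (e : Qbar) ^ 2 = 1 ∧ (Y : Qbar) = e * Y.natAbs := by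
    rcases Int.natAbs_eq Y with k | k
    · exact ⟨1, by simp, by rw [← Int.cast_natCast, ← k]; simp⟩
    · exact ⟨-1, by simp, by rw [← Int.cast_natCast, ← neg_eq_iff_eq_neg.2 k]; simp⟩
  have r0 := rho_ne (Int.natAbs_ne_zero.2 hY)
  have r3 := rho_cube Y.natAbs
  have e0 : (e : Qbar) ≠ 0 := fun k => by simp [k] at h1
  have X0 : (e : Qbar) * rho Y.natAbs ≠ 0 := mul_ne_zero e0 r0
  have X3 : (e * rho Y.natAbs) ^ 3 = (Y : Qbar) := by
    rw [mul_pow, r3, h2, pow_succ, h1, one_mul]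
  obtain ⟨P, hP⟩ := exists_co (A := -(e * rho Y.natAbs)) (B := x / (e * rho Y.natAbs))
    (C := -rho n) (by
      rw [div_pow, h, neg_pow, neg_pow (rho n), X3, rho_cube,
        mul_div_cancel_left₀ _ (Int.cast_ne_zero.2 hY)]
      ring) (.inl (neg_ne_zero.2 X0))
  refine ⟨kc_kk _ _, -P, fun g hg => ?_⟩
  have w3 := c1_cube (kk Y.natAbs g).val
  have k : act n 1 g P = P + mu (zeta 1 ^ (kk Y.natAbs g).val) := by
    refine (c1_co n g hP).inj ?_
    convert hP.add_mu w3 using 1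
    · rw [map_neg, map_mul, map_intCast, kk_spec]
      ring
    · rw [map_div₀, map_mul, map_intCast, kk_spec, hx g hg]
      have := H3.TA.tae_ne w3
      field_simp
      linear_combination -x * w3
  change kT _ = cob (act n 1) (-P) g
  rw [cob_neg, H3.cob, k, c1_mu, add_sub_cancel_left, neg_neg]

theorem kk_mem_one (n q : ℕ) : kk n ∈ Ll n false q :=
  ⟨kc_kk _ _, -T3, fun g _ => by
    change kT _ = cob (act n 1) (-T3) g
    rw [cob_neg, cob_T3, map_neg, neg_neg]⟩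

theorem kk_mem_zero (n : ℕ) {q : ℕ} (hq : q.Prime) (h1 : q % 3 = 1) : kk n ∈ Ll n true q :=
  ⟨⟨(kc_kk n _).1, fun g hg h hh => by
    rw [(kc_kk n _).2 g hg h hh, chi_Gq hq h1 hg, one_pow, one_pow]⟩, -T3, fun g hg => by
    change kT _ = cob (act n 0) (-T3) g
    rw [cob_neg, H3.cob, e5_act n 0 1 (chi_Gq hq h1 hg), ← H3.cob, cob_T3, map_neg, neg_neg]⟩

end Pool.Agent.Lib.MP_696deb_nt.CU.CP
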