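import Pool.Agent.Lib.MP_696deb_nt.CP.D0

/-! Local points on the side zero. -/

set_option autoImplicit false

open scoped Classical
open Finset Module

namespace Pool.Agent.Lib.MP_696deb_nt.CU.CP

open Pool.Agent.Lib.MP_23455a_nt (Co mu exists_co)

theorem c2_un {P : A} {a b c : Qbar} (h : Co P a b c) (j : ℕ) :
    Co (om ^ j • P) a b ((zeta 1 ^ 2) ^ j * c) := by
  induction j with
  | zero => simpa using h
  | succ j ih =>
    rw [pow_succ', mul_smul, om_smul, pow_succ' (zeta 1 ^ 2), mul_assoc]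
    exact e1_co ih

/-- The point with the parameter `z`. -/
def C2R (P : A) (z c : Qbar) : Prop :=
  Co P ((1 + 2 * zeta 1) * (z - zeta 1)) (-(1 + 2 * zeta 1) * (z - zeta 1 ^ 2)) c

theorem C2R.congr {P : A} {z c c' : Qbar} (h : C2R P z c) (e : c' = c) : C2R P z c' := e ▸ h

theorem c2_t : (1 + 2 * zeta 1) ^ 2 = -3 := by linear_combination 4 * H3.zeta_one

theorem c2_ne : 1 + 2 * zeta 1 ≠ 0 := fun e => by
  have := c2_t
  rw [e] at this
  norm_num at this

theorem c2_act {n : ℕ} (hn : n ≠ 0) {P : A} {z c : Qbar} (h : C2R P z (c / rho n ^ 2)) (g : Gam) :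
    C2R (act n 0 g P) (g z) (g c / rho n ^ 2) := by
  have h1 := c2_un (h.map (g : Qbar →+* Qbar)) (kk n g).val
  have h2 : (zeta 1 ^ 2) ^ (kk n g).val * g (c / rho n ^ 2) = g c / rho n ^ 2 := by
    have := rho_ne hn
    have := H3.zeta_ne 1
    rw [map_div₀, map_pow, kk_spec, pow_right_comm]
    field_simp
  simp only [RingHom.coe_coe, map_mul, map_add, map_sub, map_neg, map_one, map_ofNat, map_pow,
    h2] at h1
  have h3 := H3.b1b_spec 1 g
  rw [act_apply, zero_add, pow_one, ep]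
  split_ifs with e
  · rw [H3.smul_zeta_one (mem_GK.2 e)] at h1
    rw [one_smul]
    exact h1
  · rw [show cy 1 g = -1 from (chi_cases g).resolve_left e,
      show (-1 : ZMod (3 ^ 1)).val = 2 from rfl] at h3
    rw [h3, show (zeta 1 ^ 2) ^ 2 = zeta 1 by linear_combination zeta 1 * H3.TA.zeta_cube,
      show 1 + 2 * zeta 1 ^ 2 = -(1 + 2 * zeta 1) by linear_combination 2 * H3.zeta_one,
      neg_neg] at h1
    rw [neg_one_smul]
    exact h1.neg

theorem c2_inj {P : A} {z z' c c' : Qbar} (h : C2R P z c) (h' : C2R P z' c') : z' = z := by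
  obtain ⟨l, -, e1, e2, -⟩ := Pool.Agent.Lib.MP_23455a_nt.Co.eq h h'
  have e3 : (1 + 2 * zeta 1) ^ 2 * (l - 1) = 0 := by
    linear_combination e1 + e2 + (1 + 2 * zeta 1) * (l - 1) * H3.zeta_one
  rw [sub_eq_zero.1 ((mul_eq_zero.1 e3).resolve_left (pow_ne_zero 2 c2_ne)), one_mul] at e1
  linear_combination mul_left_cancel₀ c2_ne e1

theorem c2_step {P : A} {z c : Qbar} (h : C2R P z c) (h1 : 1 + z ≠ 0) :
    C2R (P + mu (zeta 1)) (-1 / (1 + z)) (-1 / (1 + z) * c) := by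
  have k := (h.add_mu H3.TA.zeta_cube).smul (l := -1 / (1 + z)) (div_ne_zero (by norm_num) h1)
  unfold C2R
  convert k using 1
  · field_simp
    linear_combination -(1 + 2 * zeta 1) * H3.zeta_one
  · field_simp
    linear_combination (1 + 2 * zeta 1) * (zeta 1 ^ 2 - zeta 1 + 1) * H3.zeta_one

theorem pts0 {n q : ℕ} (hn : n ≠ 0) {a : ℤ} {ξ y : Qbar} (hξ : Fx (Gq q) ξ)
    (h : ξ ^ 3 = n ^ 2 * (a ^ 2 + 3 * a + 9)) (hy : y ^ 3 - a * y ^ 2 - (a + 3) * y - 1 = 0) :
    ∃ u ∈ Ll n true q, ∀ g ∈ Gq q, (u g = 0 ↔ g y = y) := by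
  have y0 : y ≠ 0 := by
    rintro rfl
    norm_num at hy
  have y1 : 1 + y ≠ 0 := fun e => by
    rw [show y = -1 by linear_combination e] at hy
    exact one_ne_zero (by linear_combination hy : (1 : Qbar) = 0)
  have hD : (a ^ 2 + 3 * a + 9) * (y * (1 + y)) ^ 2 = (y ^ 2 + y + 1) ^ 3 := by
    linear_combination (-(y ^ 3 - 3 * y - 1) - a * y * (y + 1) - 3 * y * (y + 1)) * hy
  have y2 : y ^ 2 + y + 1 ≠ 0 := fun e => by
    rw [e, zero_pow three_ne_zero, mul_eq_zero_iff_right (pow_ne_zero 2 (mul_ne_zero y0 y1))] at hD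
    have : a ^ 2 + 3 * a + 9 = 0 := by exact_mod_cast hD
    nlinarith [sq_nonneg (2 * a + 3)]
  have r0 := rho_ne hn
  obtain ⟨Q, hQ⟩ : ∃ Q, C2R Q y (3 * ξ * (y * (1 + y)) / (y ^ 2 + y + 1) / rho n ^ 2) := by
    refine exists_co ?_ ((ne_or_eq y (zeta 1)).imp
      (fun e => mul_ne_zero c2_ne (sub_ne_zero.2 e)) fun e => mul_ne_zero (neg_ne_zero.2 c2_ne) ?_)
    · have k : (y - zeta 1) ^ 3 - (y - zeta 1 ^ 2) ^ 3 = -3 * (1 + 2 * zeta 1) * (y * (1 + y)) := by
        linear_combination (3 * y ^ 2 + 3 * y) * H3.zeta_one +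
          (zeta 1 ^ 3 - 3 * y * zeta 1) * H3.TA.zeta_cube
      have k' : (3 * ξ * (y * (1 + y)) / (y ^ 2 + y + 1) / rho n ^ 2) ^ 3 = 27 * (y * (1 + y)) := by
        have n0 : (n : Qbar) ≠ 0 := Nat.cast_ne_zero.2 hn
        rw [div_pow, div_pow, pow_right_comm (rho n), rho_cube, div_div,
          div_eq_iff (mul_ne_zero (pow_ne_zero 3 y2) (pow_ne_zero 2 n0)), ← hD]
        linear_combination 27 * (y * (1 + y)) ^ 3 * h
      rw [k']
      linear_combination (1 + 2 * zeta 1) ^ 3 * k -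
        3 * (y * (1 + y)) * ((1 + 2 * zeta 1) ^ 2 - 3) * c2_t
    · rw [e, show zeta 1 - zeta 1 ^ 2 = 1 + 2 * zeta 1 by linear_combination -H3.zeta_one]
      exact c2_ne
  have hg : ∀ g ∈ Gq q, C2R (act n 0 g Q) (g y)
      (3 * ξ * (g y * (1 + g y)) / (g y ^ 2 + g y + 1) / rho n ^ 2) := fun g hg => by
    have := c2_act hn hQ g
    simpa only [map_div₀, map_mul, map_add, map_pow, map_one, map_ofNat, hξ g hg] using this
  have s1 := c2_step hQ y1
  have y3 : 1 + -1 / (1 + y) = y / (1 + y) := by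
    field_simp
    ring
  have s2 := c2_step s1 (y3 ▸ div_ne_zero y0 y1)
  have tm : th • (mu (zeta 1) : A) = 0 := by
    rw [← neg_neg (mu (zeta 1)), ← T_eq, ← kT_one, smul_neg, th_kT, neg_zero]
  obtain ⟨u, h1, h2⟩ := exists_kC (coc_cob n 0 (Gq q) Q) fun g k => by
    have e : g y ^ 3 - a * g y ^ 2 - (a + 3) * g y - 1 = 0 := by
      simpa [map_ofNat] using congrArg g hy
    have e' : (g y - y) * (((1 + y) * g y + 1) * (y * g y + (1 + y))) = 0 := by
      linear_combination y * (1 + y) * e - g y * (1 + g y) * hy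
    have f := hg g k
    rw [cob]
    rcases mul_eq_zero.1 e' with e1 | e1
    · rw [sub_eq_zero.1 e1] at f
      rw [f.inj hQ, sub_self, smul_zero]
    rcases mul_eq_zero.1 e1 with e1 | e1
    · rw [show g y = -1 / (1 + y) by field_simp; linear_combination e1] at f
      rw [f.inj (s1.congr ?_), add_sub_cancel_left, tm]
      rw [y3, show (-1 / (1 + y)) ^ 2 + -1 / (1 + y) + 1 = (y ^ 2 + y + 1) / (1 + y) ^ 2 by
        field_simp; ring]
      field_simp
    · rw [show g y = -1 / (1 + -1 / (1 + y)) by rw [y3]; field_simp; linear_combination e1] at f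
      rw [f.inj (s2.congr ?_), add_assoc, add_sub_cancel_left, smul_add, tm, add_zero]
      rw [y3, show (-1 / (y / (1 + y))) ^ 2 + -1 / (y / (1 + y)) + 1 = (y ^ 2 + y + 1) / y ^ 2 by
        field_simp; ring]
      field_simp
      ring
  refine ⟨u, ⟨h1, Q, fun g k => (h2 g k).symm⟩, fun g k => ?_⟩
  rw [← kT_inj.eq_iff, map_zero, ← h2 g k, cob, sub_eq_zero]
  have f := hg g k
  exact ⟨fun e => c2_inj hQ (e ▸ f), fun e => by rw [e] at f; exact f.inj hQ⟩

end Pool.Agent.Lib.MP_696deb_nt.CU.CP
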