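import Pool.Agent.Lib.MP_696deb_nt.CP.C0
import Pool.Agent.Lib.MP_696deb_nt.CP.C1
import Pool.Agent.Lib.MP_696deb_nt.CP.C2

/-! The tables of local conditions. -/

set_option autoImplicit false

open scoped Classical
open Finset Module

namespace Pool.Agent.Lib.MP_696deb_nt.CU.CP

variable {n q : ℕ}

theorem c3_zero (n : ℕ) (j : Bool) (q : ℕ) : Has n j q 0 :=
  ⟨Fin.elim0, fun i => i.elim0, fun _ _ => Subsingleton.elim _ _⟩

theorem c3_one {j : Bool} {u : Gam → F3} (hu : u ∈ Ll n j q) (h : ¬ Cb j q u) : Has n j q 1 := by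
  refine ⟨fun _ => u, fun _ => hu, fun x ⟨t, ht⟩ => ?_⟩
  by_contra k
  have h0 : x 0 ≠ 0 := fun e => k (funext fun i => by rw [Subsingleton.elim i 0]; exact e)
  have h1 : ∀ s : F3, s ≠ 0 → s * s = 1 := by decide
  refine h ⟨x 0 * t, fun g hg => ?_⟩
  have h2 := ht g hg
  rw [Fin.sum_univ_one, Pi.smul_apply, smul_eq_mul] at h2
  rw [mul_assoc, ← h2, ← mul_assoc, h1 _ h0, one_mul]

theorem c3_two {j : Bool} {u v : Gam → F3} (hu : u ∈ Ll n j q) (hv : v ∈ Ll n j q)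
    (h : ∀ s t : F3, Cb j q (s • u + t • v) → s = 0 ∧ t = 0) : Has n j q 2 := by
  refine ⟨![u, v], Fin.forall_fin_two.2 ⟨hu, hv⟩, fun x hx => ?_⟩
  rw [Fin.sum_univ_two] at hx
  exact funext (Fin.forall_fin_two.2 (h _ _ hx))

theorem c3_cb {u : Gam → F3} (h : Cb true q u) {g : Gam} (hg : g ∈ Gq q) : u g = 0 := by
  obtain ⟨x, hx⟩ := h
  rw [hx g hg, sd_true, pow_zero, sub_self, mul_zero]

theorem c3_root (a : ℤ) : ∃ y : Qbar, y ^ 3 - a * y ^ 2 - (a + 3) * y - 1 = 0 := by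
  open Polynomial in
  have h : (X ^ 3 - C (a : Qbar) * X ^ 2 - C ((a : Qbar) + 3) * X - 1 : Qbar[X]).degree = 3 := by
    compute_degree!
  obtain ⟨y, hy⟩ := IsAlgClosed.exists_root _ (h.trans_ne (by decide))
  exact ⟨y, by simpa using hy⟩

theorem c3_pt (hn : n ≠ 0) {a b m : ℤ} (hb : b % 9 = 1)
    (h : (n : ℤ) ^ 2 * (a ^ 2 + 3 * a + 9) = m ^ 3 * b) :
    ∃ y : Qbar, y ^ 3 - a * y ^ 2 - (a + 3) * y - 1 = 0 ∧
      ∃ u ∈ Ll n true 3, ∀ g ∈ Gq 3, (u g = 0 ↔ g y = y) := by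
  obtain ⟨y, hy⟩ := c3_root a
  obtain ⟨x, hx, e⟩ := cube3 (.inl hb)
  refine ⟨y, hy, pts0 (ξ := m * x) hn (fun g hg => ?_) ?_ hy⟩
  · rw [map_mul, map_intCast, hx g hg]
  · rw [mul_pow, e]
    exact_mod_cast congrArg (Int.cast : ℤ → Qbar) h.symm

theorem c3_unr (hn : n ≠ 0) {a : ℤ} (ha : ¬ 3 ∣ a)
    (h : (n : ℤ) ^ 2 * (a ^ 2 + 3 * a + 9) % 9 = 1) :
    ∃ u ∈ Ll n true 3, (∀ g ∈ Iq 3, u g = 0) ∧ u (fq 3) ≠ 0 := by
  obtain ⟨y, hy, u, hu, k⟩ := c3_pt (a := a) (m := 1) hn h (by rw [one_pow, one_mul])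
  obtain ⟨h1, h2⟩ := cyc_unr hy ha
  exact ⟨u, hu, fun g hg => (k g (B2.Ine_le _ hg)).2 (h1 g hg),
    fun e => h2 ((k _ (fq_mem Nat.prime_three)).1 e)⟩

theorem c3_ram (hn : n ≠ 0) {a b m : ℤ} (ha : a = 3 ∨ 9 ∣ a) (hb : b % 9 = 1)
    (h : (n : ℤ) ^ 2 * (a ^ 2 + 3 * a + 9) = m ^ 3 * b) :
    ∃ u ∈ Ll n true 3, ∃ g ∈ Iq 3, u g ≠ 0 := by
  obtain ⟨y, hy, u, hu, k⟩ := c3_pt hn hb h
  obtain ⟨g, hg, h1⟩ := cyc_ram hy ha
  exact ⟨u, hu, g, hg, fun e => h1 ((k g (B2.Ine_le _ hg)).1 e)⟩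

theorem c3_unr_one (hn : n ≠ 0) {a : ℤ} (ha : ¬ 3 ∣ a)
    (h : (n : ℤ) ^ 2 * (a ^ 2 + 3 * a + 9) % 9 = 1) : Has n true 3 1 := by
  obtain ⟨u, hu, -, k⟩ := c3_unr hn ha h
  exact c3_one hu fun e => k (c3_cb e (fq_mem Nat.prime_three))

theorem c3_ram_one (hn : n ≠ 0) {a b m : ℤ} (ha : a = 3 ∨ 9 ∣ a) (hb : b % 9 = 1)
    (h : (n : ℤ) ^ 2 * (a ^ 2 + 3 * a + 9) = m ^ 3 * b) : Has n true 3 1 := by
  obtain ⟨u, hu, g, hg, k⟩ := c3_ram hn ha hb h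
  exact c3_one hu fun e => k (c3_cb e (B2.Ine_le _ hg))

theorem c3_sq {k r : ℤ} (h : k % 9 = r) (c : ℤ) : k ^ 2 * c % 9 = r ^ 2 * c % 9 := by
  rw [← h]
  exact ((Int.mod_modEq k 9).symm.pow 2).mul_right c

/-- The case `n = 1, 8` modulo nine. -/
theorem c3_A (hn : n ≠ 0) (h : n % 9 = 1 ∨ n % 9 = 8) : Has n true 3 2 := by
  have h1 : ∀ c : ℤ, c % 9 = 1 → (n : ℤ) ^ 2 * c % 9 = 1 := fun c hc => by
    rcases h with h | h
    · rw [c3_sq (r := 1) (by omega)]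
      omega
    · rw [c3_sq (r := 8) (by omega)]
      omega
  obtain ⟨u, hu, u1, u2⟩ := c3_unr hn (a := 2) (by decide) (h1 _ (by decide))
  obtain ⟨v, hv, g, hg, v1⟩ := c3_ram hn (a := 3) (m := 3) (.inl rfl) (h1 1 (by decide)) (by ring)
  refine c3_two hu hv fun s t e => ?_
  have e1 := c3_cb e (B2.Ine_le _ hg)
  have e2 := c3_cb e (fq_mem Nat.prime_three)
  simp only [Pi.add_apply, Pi.smul_apply, smul_eq_mul] at e1 e2
  rw [u1 g hg, mul_zero, zero_add] at e1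
  have ht := (mul_eq_zero.1 e1).resolve_right v1
  rw [ht, zero_mul, add_zero] at e2
  exact ⟨(mul_eq_zero.1 e2).resolve_right u2, ht⟩

theorem c3_nc (h : n % 9 = 3 ∨ n % 9 = 6) {i j : ℕ} (hi : i < 3) (hj : j < 3)
    (k : ¬ (i = 0 ∧ j = 0)) :
    n ^ i * 2 ^ j % 9 ≠ 1 ∧ n ^ i * 2 ^ j % 9 ≠ 8 ∧ ¬ 27 ∣ n ^ i * 2 ^ j := by
  have h2 : n ^ 2 % 27 = 9 := by
    obtain ⟨t, rfl | rfl⟩ : ∃ t, n = 9 * t + 3 ∨ n = 9 * t + 6 := ⟨n / 9, by omega⟩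
    · rw [show (9 * t + 3) ^ 2 = 9 + 27 * (3 * t ^ 2 + 2 * t) by ring, Nat.add_mul_mod_self_left]
    · rw [show (9 * t + 6) ^ 2 = 9 + 27 * (3 * t ^ 2 + 4 * t + 1) by ring,
        Nat.add_mul_mod_self_left]
  have h0 := pow_zero n
  have h1 := pow_one n
  interval_cases i <;> interval_cases j <;> omega

/-- The case `n = 3, 6` modulo nine. -/
theorem c3_B (hn : n ≠ 0) (h : n % 9 = 3 ∨ n % 9 = 6) : Has n false 3 2 := by
  have h2 : kk 2 ∈ Ll n false 3 := by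
    rcases h with h | h
    · obtain ⟨x, hx, e⟩ := cube3 (b := 2 * (2 + n)) (.inl (by omega))
      have k := pts1 (Y := 2) hn (by decide) hx (by rw [e]; push_cast; ring)
      rwa [show Int.natAbs 2 = 2 from rfl] at k
    · obtain ⟨x, hx, e⟩ := cube3 (b := -2 * (-2 + n)) (.inl (by omega))
      have k := pts1 (Y := -2) hn (by decide) hx (by rw [e]; push_cast; ring)
      rwa [show Int.natAbs (-2) = 2 from rfl] at k
  refine c3_two (kk_mem_one n 3) h2 fun s t e => ?_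
  by_contra k
  refine not_cb (c3_nc h s.val_lt t.val_lt fun k' =>
    k ⟨(ZMod.val_eq_zero s).1 k'.1, (ZMod.val_eq_zero t).1 k'.2⟩) ?_
  obtain ⟨x, hx⟩ := e
  refine ⟨x, fun g hg => ?_⟩
  rw [kk_mul (pow_ne_zero _ hn) (pow_ne_zero _ two_ne_zero), kk_pow, kk_pow,
    ZMod.natCast_zmod_val, ZMod.natCast_zmod_val, ← hx g hg, Pi.add_apply, Pi.smul_apply,
    Pi.smul_apply, smul_eq_mul, smul_eq_mul]

/-- The case `n = 0` modulo nine. -/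
theorem c3_C (hn : n ≠ 0) (h : n % 9 = 0) (h' : ¬ 27 ∣ n) : Has n true 3 1 := by
  obtain ⟨k, hk⟩ : ∃ k : ℤ, (n : ℤ) = 9 * k := ⟨n / 9, by omega⟩
  have h1 : k % 9 = 1 ∨ k % 9 = 8 ∨ k % 9 = 2 ∨ k % 9 = 7 ∨ k % 9 = 4 ∨ k % 9 = 5 := by omega
  rcases h1 with e | e | e | e | e | e
  · exact c3_ram_one hn (a := 0) (m := 9) (b := k ^ 2 * 1) (by decide) (by rw [c3_sq e]; decide)
      (by rw [hk]; ring)
  · exact c3_ram_one hn (a := 0) (m := 9) (b := k ^ 2 * 1) (by decide) (by rw [c3_sq e]; decide)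
      (by rw [hk]; ring)
  · exact c3_ram_one hn (a := 18) (m := 9) (b := k ^ 2 * 43) (by decide) (by rw [c3_sq e]; decide)
      (by rw [hk]; ring)
  · exact c3_ram_one hn (a := 18) (m := 9) (b := k ^ 2 * 43) (by decide) (by rw [c3_sq e]; decide)
      (by rw [hk]; ring)
  · exact c3_ram_one hn (a := 9) (m := 9) (b := k ^ 2 * 13) (by decide) (by rw [c3_sq e]; decide)
      (by rw [hk]; ring)
  · exact c3_ram_one hn (a := 9) (m := 9) (b := k ^ 2 * 13) (by decide) (by rw [c3_sq e]; decide)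
      (by rw [hk]; ring)

theorem three_tab (hn : Cf n) : Has n true 3 (l0 n) ∧ Has n false 3 (2 - l0 n) := by
  have h27 : ¬ 27 ∣ n := fun k =>
    (hn.2 3).not_ge ((Nat.prime_three.pow_dvd_iff_le_factorization hn.1).1 k)
  unfold l0
  split_ifs with h1 h2
  · exact ⟨c3_A hn.1 h1, c3_zero _ _ _⟩
  · exact ⟨c3_zero _ _ _, c3_B hn.1 h2⟩
  refine ⟨?_, c3_one (kk_mem_one n 3) (not_cb (by omega))⟩
  have h3 : n % 9 = 0 ∨ (n : ℤ) % 9 = 2 ∨ (n : ℤ) % 9 = 7 ∨ (n : ℤ) % 9 = 4 ∨ (n : ℤ) % 9 = 5 := by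
    omega
  rcases h3 with e | e | e | e | e
  · exact c3_C hn.1 e h27
  · exact c3_unr_one hn.1 (a := 7) (by decide) (by rw [c3_sq e]; decide)
  · exact c3_unr_one hn.1 (a := 7) (by decide) (by rw [c3_sq e]; decide)
  · exact c3_unr_one hn.1 (a := 1) (by decide) (by rw [c3_sq e]; decide)
  · exact c3_unr_one hn.1 (a := 1) (by decide) (by rw [c3_sq e]; decide)

theorem c3_ne (hn : Cf n) (hq : q.Prime) (h3 : q ≠ 3) (h : q ∣ n) (j : Bool) :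
    ¬ Cb j q (kk n) := by
  rintro ⟨x, hx⟩
  have h1 := hx _ (sq_mem hq h3)
  rw [kk_sq hq h3 hn.1, chi_ine hq h3 (sq_ine hq h3), one_pow, sub_self, mul_zero,
    ZMod.natCast_eq_zero_iff] at h1
  exact (Nat.le_of_dvd (hq.factorization_pos_of_dvd hn.1 h) h1).not_gt (hn.2 q)

theorem has_one (hn : Cf n) (hq : q.Prime) (h3 : q ≠ 3) (h : q ∣ n) : Has n false q 1 :=
  c3_one (kk_mem_one n q) (c3_ne hn hq h3 h false)

theorem has_zero (hn : Cf n) (hq : q.Prime) (h1 : q % 3 = 1) (h : q ∣ n) : Has n true q 1 :=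
  c3_one (kk_mem_zero n hq h1) (c3_ne hn hq (by omega) h true)

end Pool.Agent.Lib.MP_696deb_nt.CU.CP
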