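import Pool.Agent.Lib.MP_696deb_nt.CU.Z1
import Pool.Agent.Lib.MP_696deb_nt.CL.W

/-! Definitions for the parity of the Selmer rank of the curves `x ^ 3 + y ^ 3 = n`. -/

set_option autoImplicit false

open scoped Classical
open Finset Module

namespace Pool.Agent.Lib.MP_696deb_nt.CU.CP

/-- The two sides: `false` is the side one (Kummer cocycles), `true` is the side zero. -/
def sd (j : Bool) : ℕ := cond j 0 1

theorem sd_true : sd true = 0 := rfl

theorem sd_false : sd false = 1 := rfl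

theorem act_sd (n : ℕ) (j : Bool) : act n (sd j + 1) = act n (sd (!j)) := by
  cases j
  · exact act_add_two n 0
  · rfl

theorem zs_sd (n : ℕ) (j : Bool) (l : ℕ) : Zs n (sd j + 1) l = Zs n (sd (!j)) l := by
  cases j
  · exact zs_add_two n 0 l
  · rfl

theorem kc_sd {j : Bool} {D : Subgroup Gam} {u : Gam → F3} :
    Kc (sd j + 1) D u ↔ Kc (sd (!j)) D u := by
  cases j
  · exact (kc_mod (e := 2)).symm
  · rfl

/-- The local pairing of `u` on the side `!j` with `b` on the side `j`. -/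
noncomputable def lq (j : Bool) (q : ℕ) (u b : Gam → F3) : F3 := cond j (lp q b u) (lp q u b)

/-- The sum of the local pairings. -/
noncomputable def pr (n : ℕ) (j : Bool) (u : ℕ → Gam → F3) (b : Gam → F3) : F3 :=
  ∑ q ∈ (3 * n).primeFactors, lq j q (u q) b

theorem kC_add (u v : Gam → F3) : kC (u + v) = kC u + kC v := map_add kM u v

theorem kC_zero : kC 0 = 0 := map_zero kM

theorem kC_sub (u v : Gam → F3) : kC (u - v) = kC u - kC v := map_sub kM u v

theorem kC_smul (a : F3) (u : Gam → F3) : kC (a • u) = a.val • kC u := by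
  rw [← kM_apply, ← kM_apply, ← map_nsmul, ← Nat.cast_smul_eq_nsmul F3, ZMod.natCast_zmod_val]

/-- The Selmer cocycles of level one. -/
noncomputable def Sel (n : ℕ) (j : Bool) : Submodule F3 (Gam → F3) where
  carrier := {u | kC u ∈ Zs n (sd j) 1}
  zero_mem' := by
    rw [Set.mem_setOf_eq, kC_zero]
    exact zero_mem _
  add_mem' := fun h h' => by
    rw [Set.mem_setOf_eq, kC_add]
    exact add_mem h h'
  smul_mem' a u h := by
    rw [Set.mem_setOf_eq, kC_smul]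
    exact nsmul_mem h _

theorem mem_Sel {n : ℕ} {j : Bool} {u : Gam → F3} : u ∈ Sel n j ↔ kC u ∈ Zs n (sd j) 1 := Iff.rfl

theorem Sel.kc {n : ℕ} {j : Bool} {u : Gam → F3} (h : u ∈ Sel n j) : Kc (sd j) ⊤ u :=
  coc_kC.1 (mem_Sel.1 h).coc

theorem loc_nsmul {n e q : ℕ} {c : Gam → A} (h : Loc n e q c) (k : ℕ) : Loc n e q (k • c) := by
  induction k with
  | zero =>
    rw [zero_smul]
    exact Loc.zero n e q
  | succ k ih =>
    rw [succ_nsmul]
    exact ih.add h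

/-- The local conditions of level one. -/
noncomputable def Ll (n : ℕ) (j : Bool) (q : ℕ) : Submodule F3 (Gam → F3) where
  carrier := {u | Kc (sd j) (Gq q) u ∧ Loc n (sd j) q (kC u)}
  zero_mem' := ⟨Kc.zero _ _, by
    rw [kC_zero]
    exact Loc.zero _ _ _⟩
  add_mem' := fun h h' => ⟨h.1.add h'.1, by
    rw [kC_add]
    exact h.2.add h'.2⟩
  smul_mem' a u h := ⟨h.1.smul a, by
    rw [kC_smul]
    exact loc_nsmul h.2 _⟩

theorem mem_Ll {n q : ℕ} {j : Bool} {u : Gam → F3} :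
    u ∈ Ll n j q ↔ Kc (sd j) (Gq q) u ∧ Loc n (sd j) q (kC u) := Iff.rfl

/-- The coordinate on the kernel of `th`. -/
noncomputable def dg (x : A) : F3 := Function.invFun kT x

theorem dg_kT (a : F3) : dg (kT a) = a := Function.leftInverse_invFun kT_inj a

theorem kT_dg {x : A} (h : th • x = 0) : kT (dg x) = x := by
  obtain ⟨a, rfl⟩ := exists_kT h
  rw [dg_kT]

/-- The top digit of a cochain. -/
noncomputable def tp (l : ℕ) (c : Gam → A) (g : Gam) : F3 := dg (th ^ l • c g)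

/-- Global cocycles that are unramified outside of `3 n`, with their local defects. -/
structure Lf (n : ℕ) (j : Bool) (c : Gam → A) (u : ℕ → Gam → F3) : Prop where
  coc : Coc ⊤ (act n (sd j)) c
  unr : ∀ q : ℕ, q.Prime → ¬ q ∣ 3 * n → c (sq q) = 0
  kc : ∀ q : ℕ, q.Prime → q ∣ 3 * n → Kc (sd j) (Gq q) (u q)
  loc : ∀ q : ℕ, q.Prime → q ∣ 3 * n → Loc n (sd j) q (c - kC (u q))

/-- Global duality for the first layer. -/
def Pt (n : ℕ) : Prop := ∀ (j : Bool) (u : ℕ → Gam → F3),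
  (∀ q : ℕ, q.Prime → q ∣ 3 * n → Kc (sd (!j)) (Gq q) (u q)) → (∀ b ∈ Sel n j, pr n j u b = 0) →
    ∃ v, Kc (sd (!j)) ⊤ v ∧ (∀ q : ℕ, q.Prime → ¬ q ∣ 3 * n → v (sq q) = 0) ∧
      ∀ q : ℕ, q.Prime → q ∣ 3 * n → u q - v ∈ Ll n (!j) q

/-- Cube free positive integers. -/
def Cf (n : ℕ) : Prop := n ≠ 0 ∧ ∀ q : ℕ, n.factorization q < 3

/-- `u` is a coboundary on the decomposition group. -/
def Cb (j : Bool) (q : ℕ) (u : Gam → F3) : Prop := ∃ x : F3, ∀ g ∈ Gq q, u g = x * (chi g ^ sd j - 1)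

/-- Local coordinates. -/
structure Gram (q : ℕ) (co : Bool → (Gam → F3) →ₗ[F3] F3 × F3) : Prop where
  gram : ∀ u k, Kc 0 (Gq q) u → Kc 1 (Gq q) k →
    lp q u k = (co true u).1 * (co false k).1 + (co true u).2 * (co false k).2
  det : ∀ j u, Kc (sd j) (Gq q) u → co j u = 0 → Cb j q u
  cob : co false (fun g => chi g - 1) = 0
  two : q % 3 = 2 → ∀ j u, (co j u).2 = 0

/-- The dimension of the local condition at three on the side zero. -/
def l0 (n : ℕ) : ℕ := if n % 9 = 1 ∨ n % 9 = 8 then 2 else if n % 9 = 3 ∨ n % 9 = 6 then 0 else 1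

/-- There are `l` independent classes that satisfy the local condition. -/
def Has (n : ℕ) (j : Bool) (q l : ℕ) : Prop := ∃ v : Fin l → Gam → F3,
  (∀ i, v i ∈ Ll n j q) ∧ ∀ x : Fin l → F3, Cb j q (∑ i, x i • v i) → x = 0

/-- The algebraic shape of the descent. -/
structure Fil (X Y : Type) [AddCommGroup X] [AddCommGroup Y] [Module F3 Y] where
  Z : Bool → ℕ → AddSubgroup X
  Sel : Bool → Submodule F3 Y
  om : Bool → X →+ X
  tp : ℕ → X → Y
  ct : Bool → X → Y → F3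
  fin : ∀ j, Finite (Sel j)
  Z_zero : ∀ j, ∀ x ∈ Z j 0, x = 0
  Z_mono : ∀ j n, Z j n ≤ Z j (n + 1)
  tp_add : ∀ j n, ∀ x ∈ Z j (n + 1), ∀ y ∈ Z j (n + 1), tp n (x + y) = tp n x + tp n y
  tp_zero : ∀ j n, ∀ x ∈ Z j (n + 1), (tp n x = 0 ↔ x ∈ Z j n)
  tp_sel : ∀ j, ∀ x ∈ Z j 1, tp 0 x ∈ Sel j
  tp_surj : ∀ j, ∀ b ∈ Sel j, ∃ x ∈ Z j 1, tp 0 x = b
  om_mem : ∀ j n, ∀ x ∈ Z (!j) (n + 1), om j x ∈ Z j n
  om_tp : ∀ j n, ∀ x ∈ Z (!j) (n + 2), tp n (om j x) = tp (n + 1) x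
  ct_add : ∀ j n, ∀ x ∈ Z j n, ∀ y ∈ Z j n, ∀ b ∈ Sel j, ct j (x + y) b = ct j x b + ct j y b
  ct_add' : ∀ j n, ∀ x ∈ Z j n, ∀ b ∈ Sel j, ∀ b' ∈ Sel j, ct j x (b + b') = ct j x b + ct j x b'
  ct_ker : ∀ j n, ∀ x ∈ Z j n, ((∀ b ∈ Sel j, ct j x b = 0) ↔ ∃ y ∈ Z (!j) (n + 1), om j y = x)
  alt : ∀ j m, ∀ x ∈ Z j (2 * m + 1), ct j x (tp (2 * m) x) = 0

end Pool.Agent.Lib.MP_696deb_nt.CU.CP
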