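import Pool.Agent.Lib.MP_696deb_nt.CP.C0

/-! Local coordinates. -/

set_option autoImplicit false

open scoped Classical
open Finset Module

namespace Pool.Agent.Lib.MP_696deb_nt.CU.CP

theorem gram_tame {q : ℕ} (hq : q.Prime) (h3 : q ≠ 3) : ∃ co, Gram q co := by
  have h0 : q % 3 ≠ 0 := fun h => h3 ((Nat.prime_dvd_prime_iff_eq Nat.prime_three hq).1
    (Nat.dvd_of_mod_eq_zero h)).symm
  have hs := chi_ine hq h3 (sq_ine hq h3)
  let ev : Gam → (Gam → F3) →ₗ[F3] F3 := fun g => LinearMap.proj g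
  by_cases h1 : q % 3 = 1
  · refine ⟨fun j => cond j ((ev (fq q)).prod (ev (sq q))) ((ev (sq q)).prod (-ev (fq q))),
      fun u k hu hk => ?_, fun j u hu h => ⟨0, fun g hg => ?_⟩, ?_, fun h => by omega⟩
    · rw [lp_tame hq h3 hu hk]
      simp [ev, sub_eq_add_neg]
    · rw [zero_mul]
      cases j
      · exact hu.det hq h3 (congrArg Prod.fst h) (neg_eq_zero.1 (congrArg Prod.snd h)) hg
      · exact hu.det hq h3 (congrArg Prod.snd h) (congrArg Prod.fst h) hg
    · simp [ev, hs, chi_Gq hq h1 (fq_mem hq)]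
  · have h2 : q % 3 = 2 := by omega
    have hf : chi (fq q) = 2 := by rw [chi_fq hq h3, ← ZMod.natCast_mod, h2]; rfl
    refine ⟨fun j => cond j ((ev (fq q)).prod 0) ((ev (sq q)).prod 0),
      fun u k hu hk => ?_, fun j u hu h => ?_, ?_, fun _ j u => ?_⟩
    · rw [lp_tame hq h3 hu hk, hu.ev hq h2]
      simp [ev]
    · cases j
      · have h4 : u (sq q) = 0 := congrArg Prod.fst h
        refine ⟨u (fq q), fun g hg => ?_⟩
        have := (Kc.sub (e := 1) hu ((kc_chi _).smul (u (fq q)))).det hq h3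
          (by simp [h4, hs]) (by simp only [Pi.sub_apply, hf]; ring) hg
        rw [sd_false, pow_one]
        exact sub_eq_zero.1 this
      · exact ⟨0, fun g hg => by
          rw [zero_mul]; exact hu.det hq h3 (Kc.ev hu hq h2) (congrArg Prod.fst h) hg⟩
    · simp [ev, hs]
    · cases j <;> rfl

theorem h0_span {k : Gam → F3} (hk : Kc 1 (Gq 3) k) :
    ∃ i j x : F3, ∀ g ∈ Gq 3, k g = i * kk 2 g + j * kk 3 g + x * (chi g - 1) := by
  obtain ⟨i, j, x, h⟩ := H3.l3a_step (pl_p Nat.prime_three) (κ₂ := kk 2) (κ := k)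
    (by exact_mod_cast kum_kk (n := 2) two_ne_zero _) hk.1
    fun g hg h hh => (hk.2 g hg h hh).trans (by rw [pow_one]; rfl)
  refine ⟨-i, -j, x, fun g hg => ?_⟩
  have h1 : k g + (i : F3) * kk 2 g + (j : F3) * H3.km 1 g = (chi g - 1) * x := h g hg
  rw [e3_km]
  linear_combination h1

theorem h0_lp {u k : Gam → F3} (hu : Kc 0 (Gq 3) u) {i j x : F3}
    (h : ∀ g ∈ Gq 3, k g = i * kk 2 g + j * kk 3 g + x * (chi g - 1)) :
    lp 3 u k = lp 3 u (kk 2) * i + lp 3 u (kk 3) * j := by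
  have a := (kc_kk 2 (Gq 3)).smul i
  have b := (kc_kk 3 (Gq 3)).smul j
  have c := (kc_chi (Gq 3)).smul x
  rw [lp_congr (u' := u) (k' := ((fun g => i * kk 2 g) + fun g => j * kk 3 g) +
      fun g => x * (chi g - 1)) (fun _ _ => rfl) h, lp_add_right hu (a.add b) c,
    lp_add_right hu a b, lp_smul_right hu (kc_kk _ _), lp_smul_right hu (kc_kk _ _),
    lp_smul_right hu (kc_chi _), lp_chi hu]
  ring

theorem h0_zero {u : Gam → F3} (hu : Kc 0 (Gq 3) u) (h2 : lp 3 u (kk 2) = 0)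
    (h3 : lp 3 u (kk 3) = 0) {g : Gam} (hg : g ∈ Gq 3) : u g = 0 := by
  obtain ⟨x, hx⟩ := (H3.ld FF 1 ⊤ (pl 3) F3 F3 (e4_a 0) (e4_a (0 + 1)) H3.mu3 isOpen_univ
    inferInstance (e4_dual 0 _)).2 u (hu.mono inf_le_right) fun k hk => by
      have hk' : Kc 1 (Gq 3) k := Kc.mono (D := ⊤ ⊓ Gq 3) hk (le_inf le_top le_rfl)
      obtain ⟨i, j, x, h⟩ := h0_span hk'
      have h4 := h0_lp hu h
      rw [h2, h3, zero_mul, zero_mul, add_zero] at h4
      refine Eq.trans ?_ h4
      refine inv_congr fun a _ b _ => ?_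
      change u a * (chi a ^ (0 + 1) * k b) = _
      ring
  rw [hx g ⟨trivial, hg⟩]
  simp [H3.cob, e4_a_apply]

theorem h0_indep {i j x : F3} (h : ∀ g ∈ Gq 3, i * kk 2 g + j * kk 3 g + x * (chi g - 1) = 0) :
    i = 0 ∧ j = 0 ∧ x = 0 := by
  by_cases hi : i = 0
  · subst hi
    exact ⟨rfl, indep_three fun g hg => by simpa using h g hg⟩
  · refine (not_cb (b := 2 ^ i.val * 3 ^ j.val) ?_ ⟨-x, fun g hg => ?_⟩).elim
    · clear h
      revert i j
      decide
    · rw [kk_mul (by positivity) (by positivity), kk_pow, kk_pow, ZMod.natCast_zmod_val,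
        ZMod.natCast_zmod_val, sd_false, pow_one]
      linear_combination h g hg

theorem gram_three : ∃ co, Gram 3 co := by
  let C : Submodule F3 (Gam → F3) :=
    { carrier := {u | Kc 0 (Gq 3) u}
      zero_mem' := Kc.zero _ _
      add_mem' := fun h h' => Kc.add h h'
      smul_mem' := fun a _ h => Kc.smul h a }
  let f : C →ₗ[F3] F3 × F3 :=
    { toFun := fun u => (lp 3 u.1 (kk 2), lp 3 u.1 (kk 3))
      map_add' := fun u v => Prod.ext (lp_add_left u.2 v.2 (kc_kk _ _))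
        (lp_add_left u.2 v.2 (kc_kk _ _))
      map_smul' := fun a u => Prod.ext (lp_smul_left u.2 (kc_kk _ _) a)
        (lp_smul_left u.2 (kc_kk _ _) a) }
  obtain ⟨c1, hc1⟩ := LinearMap.exists_extend f
  have e1 : ∀ u, Kc 0 (Gq 3) u → c1 u = (lp 3 u (kk 2), lp 3 u (kk 3)) := fun u hu =>
    LinearMap.congr_fun hc1 ⟨u, hu⟩
  let ψ : (F3 × F3) × F3 →ₗ[F3] Gq 3 → F3 :=
    { toFun := fun t g => t.1.1 * kk 2 g + t.1.2 * kk 3 g + t.2 * (chi g - 1)
      map_add' := fun s t => by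
        funext g
        simp only [Prod.fst_add, Prod.snd_add, Pi.add_apply]
        ring
      map_smul' := fun a t => by
        funext g
        simp only [Prod.smul_fst, Prod.smul_snd, Pi.smul_apply, smul_eq_mul, RingHom.id_apply]
        ring }
  obtain ⟨l, hl⟩ := ψ.exists_leftInverse_of_injective (LinearMap.ker_eq_bot'.2 fun t ht => by
    obtain ⟨a, b, c⟩ := h0_indep (i := t.1.1) (j := t.1.2) (x := t.2)
      fun g hg => congrFun ht ⟨g, hg⟩
    exact Prod.ext (Prod.ext a b) c)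
  let c2 : (Gam → F3) →ₗ[F3] F3 × F3 :=
    (LinearMap.fst F3 _ _).comp (l.comp (LinearMap.funLeft F3 F3 (Subtype.val : Gq 3 → Gam)))
  have e2 : ∀ (k : Gam → F3) (i j x : F3),
      (∀ g ∈ Gq 3, k g = i * kk 2 g + j * kk 3 g + x * (chi g - 1)) → c2 k = (i, j) := by
    intro k i j x h
    have h1 : LinearMap.funLeft F3 F3 (Subtype.val : Gq 3 → Gam) k = ψ ((i, j), x) :=
      funext fun g => h g.1 g.2
    have h2 : l (ψ ((i, j), x)) = ((i, j), x) := LinearMap.congr_fun hl _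
    simp only [c2, LinearMap.comp_apply, h1, h2, LinearMap.fst_apply]
  refine ⟨fun j => cond j c1 c2, fun u k hu hk => ?_, fun j u hu h => ?_, ?_, fun h => by omega⟩
  · obtain ⟨i, j, x, h⟩ := h0_span hk
    simp only [cond_true, cond_false, e1 u hu, e2 k i j x h]
    exact h0_lp hu h
  · cases j
    · obtain ⟨i, j, x, h1⟩ := h0_span hu
      simp only [cond_false, e2 u i j x h1, Prod.mk_eq_zero] at h
      exact ⟨x, fun g hg => by rw [h1 g hg, h.1, h.2, sd_false]; ring⟩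
    · simp only [cond_true, e1 u hu, Prod.mk_eq_zero] at h
      exact ⟨0, fun g hg => by rw [zero_mul]; exact h0_zero hu h.1 h.2 hg⟩
  · exact e2 _ 0 0 1 fun g _ => by ring

theorem exists_gram {q : ℕ} (hq : q.Prime) : ∃ co, Gram q co := by
  by_cases h3 : q = 3
  · subst h3
    exact gram_three
  · exact gram_tame hq h3

end Pool.Agent.Lib.MP_696deb_nt.CU.CP
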