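import Pool.Agent.Lib.MP_696deb_nt.CP.D0

/-! The formula of Wiles. -/

set_option autoImplicit false

open scoped Classical
open Finset Module

namespace Pool.Agent.Lib.MP_696deb_nt.CU.CP

theorem h1_perp {K V : Type} [Field K] [AddCommGroup V] [Module K V] [Module.Finite K V]
    (B : LinearMap.BilinForm K V) (hB : B.Nondegenerate) {G G' : Submodule K V}
    (h : ∀ x ∈ G, ∀ y ∈ G', B x y = 0) (d : finrank K V ≤ finrank K G + finrank K G') :
    B.orthogonal G = G' ∧ finrank K G + finrank K G' = finrank K V := by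
  have h1 : G' ≤ B.orthogonal G := fun y hy x hx => h x hx y hy
  have h2 := LinearMap.BilinForm.finrank_orthogonal hB G
  have h3 := Submodule.finrank_mono h1
  have h4 := Submodule.finrank_le G
  exact ⟨(Submodule.eq_of_le_of_finrank_le h1 (by omega)).symm, by omega⟩

theorem h1_sup {K V : Type} [Field K] [AddCommGroup V] [Module K V]
    (B : LinearMap.BilinForm K V) (G L : Submodule K V) :
    B.orthogonal (G ⊔ L) = B.orthogonal G ⊓ B.orthogonal L := by
  refine le_antisymm (le_inf (LinearMap.BilinForm.orthogonal_le le_sup_left)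
    (LinearMap.BilinForm.orthogonal_le le_sup_right)) fun x hx n hn => ?_
  obtain ⟨a, ha, b, hb, rfl⟩ := Submodule.mem_sup.1 hn
  have e1 : B a x = 0 := hx.1 a ha
  have e2 : B b x = 0 := hx.2 b hb
  change B (a + b) x = 0
  rw [map_add, LinearMap.add_apply, e1, e2, add_zero]

/-- Duality and the formula of Wiles for two pairs of orthogonal complements. -/
theorem wiles {V : Type} [AddCommGroup V] [Module F3 V] [Module.Finite F3 V]
    (B : V →ₗ[F3] V →ₗ[F3] F3) (hs : ∀ x y, B x y = B y x)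
    (hn : ∀ x, (∀ y, B x y = 0) → x = 0) (G L : Bool → Submodule F3 V)
    (hG : ∀ x ∈ G false, ∀ y ∈ G true, B x y = 0) (hL : ∀ x ∈ L false, ∀ y ∈ L true, B x y = 0)
    (dG : finrank F3 V ≤ finrank F3 (G false) + finrank F3 (G true))
    (dL : finrank F3 V ≤ finrank F3 (L false) + finrank F3 (L true)) :
    (∀ j x, (∀ y ∈ G j ⊓ L j, B x y = 0) → x ∈ G (!j) ⊔ L (!j)) ∧
    finrank F3 (G false) + finrank F3 (G true) = finrank F3 V ∧
    finrank F3 (L false) + finrank F3 (L true) = finrank F3 V ∧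
    finrank F3 ↥(G true ⊓ L true) + finrank F3 (G false) + finrank F3 (L false) =
      finrank F3 V + finrank F3 ↥(G false ⊓ L false) := by
  have hB : LinearMap.BilinForm.Nondegenerate B :=
    ⟨hn, fun x hx => hn x fun y => (hs x y).trans (hx y)⟩
  have hR : LinearMap.BilinForm.IsRefl B := fun x y h => (hs y x).trans h
  have key : ∀ N : Bool → Submodule F3 V, (∀ x ∈ N false, ∀ y ∈ N true, B x y = 0) →
      finrank F3 V ≤ finrank F3 (N false) + finrank F3 (N true) →
      ∀ j, LinearMap.BilinForm.orthogonal B (N (!j)) = N j := fun N h d j => by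
    cases j
    · exact (h1_perp B hB (G := N true) (G' := N false)
        (fun x hx y hy => (hs x y).trans (h y hy x hx)) (by omega)).1
    · exact (h1_perp B hB h d).1
  have e : ∀ j, LinearMap.BilinForm.orthogonal B (G (!j) ⊔ L (!j)) = G j ⊓ L j := fun j => by
    rw [h1_sup, key G hG dG, key L hL dL]
  refine ⟨fun j x hx => ?_, (h1_perp B hB hG dG).2, (h1_perp B hB hL dL).2, ?_⟩
  · rw [← LinearMap.BilinForm.orthogonal_orthogonal hB hR (G (!j) ⊔ L (!j)), e]
    exact fun n hn => (hs n x).trans (hx n hn)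
  · have h1 := LinearMap.BilinForm.finrank_orthogonal hB (G false ⊔ L false)
    have h2 := Submodule.finrank_sup_add_finrank_inf_eq (G false) (L false)
    have h3 := Submodule.finrank_le (G false ⊔ L false)
    have h4 : LinearMap.BilinForm.orthogonal B (G false ⊔ L false) = G true ⊓ L true := e true
    rw [h4] at h1
    omega

/-- The root number in terms of the local dimension at three. -/
theorem wp_iff {n : ℕ} (hn : Cf n) :
    CL.Wp n ↔ Even (l0 n + (n.primeFactors.filter (· % 3 = 2)).card) := by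
  have h1 : (n.primeFactors.filter fun p => p % 3 = 2 ∧ n.factorization p % 3 ≠ 0) =
      n.primeFactors.filter (· % 3 = 2) := by
    refine filter_congr fun p hp => ⟨fun h => h.1, fun h => ⟨h, ?_⟩⟩
    have h2 : n.factorization p ≠ 0 := Finsupp.mem_support_iff.1 (by rwa [Nat.support_factorization])
    have h3 := hn.2 p
    omega
  have hd : ∀ k, 3 ^ k ∣ n ↔ k ≤ n.factorization 3 := fun k =>
    Nat.prime_three.pow_dvd_iff_le_factorization hn.1
  have d1 : n % 3 = 0 ↔ 1 ≤ n.factorization 3 := by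
    rw [← hd 1, pow_one, Nat.dvd_iff_mod_eq_zero]
  have d2 : n % 9 = 0 ↔ 2 ≤ n.factorization 3 := by
    rw [← hd 2, Nat.dvd_iff_mod_eq_zero]
    norm_num
  have h3 := hn.2 3
  have key : (n.factorization 3 % 3 = 1 ∨ n.factorization 3 % 3 = 0 ∧
      (n / 3 ^ n.factorization 3 % 9 = 1 ∨ n / 3 ^ n.factorization 3 % 9 = 8)) ↔ Even (l0 n) := by
    rw [Nat.even_iff, l0]
    generalize n.factorization 3 = v at d1 d2 h3 ⊢
    rcases (by omega : v = 0 ∨ v = 1 ∨ v = 2) with rfl | rfl | rfl
    · rw [pow_zero, Nat.div_one]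
      split_ifs <;> norm_num <;> omega
    · split_ifs <;> norm_num <;> omega
    · split_ifs <;> norm_num <;> omega
  rw [CL.Wp, h1, key, Nat.even_add]
  exact iff_comm

theorem h1_wp {a q : ℕ} (ha : a ≠ 0) (hq : q.Prime) : CL.Wp (a * q ^ 3) ↔ CL.Wp a := by
  have hf : ∀ p, (a * q ^ 3).factorization p = a.factorization p + if q = p then 3 else 0 := by
    intro p
    rw [Nat.factorization_mul ha (pow_ne_zero _ hq.ne_zero), Finsupp.add_apply,
      hq.factorization_pow, Finsupp.single_apply]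
  have h1 : ((a * q ^ 3).primeFactors.filter
      fun p => p % 3 = 2 ∧ (a * q ^ 3).factorization p % 3 ≠ 0) =
      a.primeFactors.filter fun p => p % 3 = 2 ∧ a.factorization p % 3 ≠ 0 := by
    ext p
    rw [mem_filter, mem_filter, ← Nat.support_factorization, ← Nat.support_factorization,
      Finsupp.mem_support_iff, Finsupp.mem_support_iff, hf]
    split_ifs <;> omega
  rw [CL.Wp, CL.Wp, h1, hf]
  refine iff_congr Iff.rfl ?_
  by_cases h3 : q = 3
  · subst h3
    rw [if_pos rfl, pow_add, Nat.mul_div_mul_right _ _ (by norm_num), Nat.add_mod_right]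
  · rw [if_neg h3, add_zero]
    obtain ⟨b, hb⟩ := Nat.ordProj_dvd a 3
    have e1 : a / 3 ^ a.factorization 3 = b := Nat.div_eq_of_eq_mul_right (by positivity) hb
    have e2 : a * q ^ 3 / 3 ^ a.factorization 3 = b * q ^ 3 :=
      Nat.div_eq_of_eq_mul_right (by positivity) (by rw [← mul_assoc, ← hb])
    have e3 : ¬ 3 ∣ q := fun h => h3 ((Nat.prime_dvd_prime_iff_eq Nat.prime_three hq).1 h).symm
    have e4 : q ^ 3 % 9 = 1 ∨ q ^ 3 % 9 = 8 := by
      rw [Nat.pow_mod]
      rcases (by omega : q % 9 = 1 ∨ q % 9 = 2 ∨ q % 9 = 4 ∨ q % 9 = 5 ∨ q % 9 = 7 ∨ q % 9 = 8) with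
        h | h | h | h | h | h <;> rw [h] <;> norm_num
    rw [e1, e2, Nat.mul_mod b]
    rcases e4 with h | h <;> rw [h] <;> omega

/-- Reduction to cube free integers. -/
theorem exists_cf {n : ℕ} (hn : n ≠ 0) :
    ∃ a m : ℕ, Cf a ∧ m ≠ 0 ∧ n = a * m ^ 3 ∧ (CL.Wp n ↔ CL.Wp a) := by
  induction n using Nat.strong_induction_on with
  | _ n ih =>
    by_cases h : ∀ q : ℕ, n.factorization q < 3
    · exact ⟨n, 1, ⟨hn, h⟩, one_ne_zero, by rw [one_pow, mul_one], Iff.rfl⟩
    · obtain ⟨q, hq⟩ := not_forall.1 h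
      have hp : q.Prime := by
        by_contra h1
        exact hq (by rw [Nat.factorization_eq_zero_of_not_prime n h1]; norm_num)
      obtain ⟨b, hb⟩ := (hp.pow_dvd_iff_le_factorization hn).2 (not_lt.1 hq)
      have b0 : b ≠ 0 := fun h1 => hn (by rw [hb, h1, mul_zero])
      have hlt : b < n := by
        rw [hb]
        exact lt_mul_of_one_lt_left (Nat.pos_of_ne_zero b0) (one_lt_pow₀ hp.one_lt (by norm_num))
      obtain ⟨a, m, h1, h2, h3, h4⟩ := ih b hlt b0
      refine ⟨a, m * q, h1, mul_ne_zero h2 hp.ne_zero, by rw [hb, h3]; ring, ?_⟩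
      rw [hb, mul_comm, h1_wp b0 hp, h4]

end Pool.Agent.Lib.MP_696deb_nt.CU.CP
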