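import Pool.Agent.Lib.MP_696deb_nt.CP.A2
import Pool.Agent.Lib.MP_696deb_nt.CP.C3
import Pool.Agent.Lib.MP_696deb_nt.CP.H0
import Pool.Agent.Lib.MP_696deb_nt.CP.H1

/-! The first layer. -/

set_option autoImplicit false

open scoped Classical
open Finset Module

namespace Pool.Agent.Lib.MP_696deb_nt.CU.CP

theorem h3_le {W V : Type} [AddCommGroup W] [Module F3 W] [AddCommGroup V]
    [Module F3 V] [Module.Finite F3 V] (f : W →ₗ[F3] V) (G : Submodule F3 V)
    (h : ∀ w, f w = 0 → w = 0) (k : ∀ w, f w ∈ G) : finrank F3 W ≤ finrank F3 G :=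
  LinearMap.finrank_le_finrank_of_injective (f := f.codRestrict G k)
    ((injective_iff_map_eq_zero _).2 fun w hw => h w (congrArg Subtype.val hw))

/-- The primes with two local coordinates. -/
abbrev h3S (n : ℕ) : Finset ℕ := (3 * n).primeFactors.filter fun q => ¬ q % 3 = 2

/-- The index set of the local coordinates. -/
abbrev H3I (n : ℕ) : Type := (3 * n).primeFactors ⊕ h3S n

/-- The coboundary. -/
noncomputable def h3b (j : Bool) (g : Gam) : F3 := chi g ^ sd j - 1

/-- The constant family. -/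
def h3k : (Gam → F3) →ₗ[F3] ℕ → Gam → F3 where
  toFun v _ := v
  map_add' _ _ := rfl
  map_smul' _ _ := rfl

/-- Global cocycles that are unramified outside of `3 n`. -/
def h3G (n : ℕ) (j : Bool) : Submodule F3 (Gam → F3) where
  carrier := {u | Kc (sd j) ⊤ u ∧ ∀ q : ℕ, q.Prime → ¬ q ∣ 3 * n → u (sq q) = 0}
  zero_mem' := ⟨Kc.zero _ _, fun _ _ _ => rfl⟩
  add_mem' := fun h h' => ⟨h.1.add h'.1, fun q hq k => by
    rw [Pi.add_apply, h.2 q hq k, h'.2 q hq k, add_zero]⟩
  smul_mem' a _ h := ⟨h.1.smul a, fun q hq k => by rw [Pi.smul_apply, h.2 q hq k, smul_zero]⟩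

/-- The coordinates of a family of local cocycles. -/
def h3c (n : ℕ) (co : ℕ → Bool → (Gam → F3) →ₗ[F3] F3 × F3) (j : Bool) :
    (ℕ → Gam → F3) →ₗ[F3] H3I n → F3 where
  toFun u := Sum.elim (fun q => (co q j (u q)).1) fun q => (co q j (u q)).2
  map_add' u v := funext fun i => by rcases i with q | q <;> simp
  map_smul' a u := funext fun i => by rcases i with q | q <;> simp

variable {n q : ℕ} {j : Bool} {co : ℕ → Bool → (Gam → F3) →ₗ[F3] F3 × F3} {u u' : ℕ → Gam → F3}
  {v : Gam → F3}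

theorem h3b_mem (n : ℕ) (j : Bool) : h3b j ∈ Sel n j := by
  have := cob_mem_Zs n (sd j) (l := 1) (P := kT 1) (by rw [pow_one, th_kT])
  rwa [show cob (act n (sd j)) (kT 1) = kC (h3b j) from funext fun g => by
    rw [cob_kT, one_mul]; rfl] at this

theorem h3b_sq (hq : q.Prime) (h3 : q ≠ 3) : h3b j (sq q) = 0 := by
  rw [h3b, chi_ine hq h3 (sq_ine hq h3), one_pow, sub_self]

theorem h3b_true : h3b true = 0 := funext fun g => by simp [h3b, sd]

theorem h3b_false : h3b false = fun g => chi g - 1 := funext fun g => by simp [h3b, sd]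

theorem h3_cb (h : Kc (sd j) (Gq q) v) (k : Cb j q v) : v ∈ Ll n j q := by
  obtain ⟨x, hx⟩ := k
  exact ⟨h, kT x, fun g hg => by rw [cob_kT, ← hx g hg]⟩

theorem h3_three (hn : n ≠ 0) : 3 ∈ (3 * n).primeFactors :=
  (z1_mem hn Nat.prime_three).2 (dvd_mul_right _ _)

section
variable (hc : ∀ q : ℕ, q.Prime → Gram q (co q))
include hc

theorem h3_zero (h : h3c n co j u = 0) (hq : q ∈ (3 * n).primeFactors) : co q j (u q) = 0 := by
  refine Prod.ext (congrFun h (.inl ⟨q, hq⟩)) ?_
  by_cases e : q % 3 = 2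
  · exact (hc q (Nat.prime_of_mem_primeFactors hq)).two e _ _
  · exact congrFun h (.inr ⟨q, mem_filter.2 ⟨hq, e⟩⟩)

theorem h3_dot (h : ∀ q ∈ (3 * n).primeFactors, Kc (sd (!j)) (Gq q) (u q))
    (h' : ∀ q ∈ (3 * n).primeFactors, Kc (sd j) (Gq q) (u' q)) :
    h3c n co (!j) u ⬝ᵥ h3c n co j u' = ∑ q ∈ (3 * n).primeFactors, lq j q (u q) (u' q) := by
  rw [dotProduct, Fintype.sum_sum_type]
  change ∑ q : (3 * n).primeFactors, (co q (!j) (u q)).1 * (co q j (u' q)).1 +
    ∑ q : h3S n, (co q (!j) (u q)).2 * (co q j (u' q)).2 = _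
  rw [sum_coe_sort _ fun q => (co q (!j) (u q)).1 * (co q j (u' q)).1,
    sum_coe_sort _ fun q => (co q (!j) (u q)).2 * (co q j (u' q)).2,
    sum_filter_of_ne (p := fun q => ¬ q % 3 = 2) fun q hq k e => k (by
      rw [(hc q (Nat.prime_of_mem_primeFactors hq)).two e, zero_mul]), ← sum_add_distrib]
  refine sum_congr rfl fun q hq => ?_
  have k := (hc q (Nat.prime_of_mem_primeFactors hq)).gram
  cases j
  · exact (k _ _ (h q hq) (h' q hq)).symm
  · exact (congrArg₂ (· + ·) (mul_comm _ _) (mul_comm _ _)).trans (k _ _ (h' q hq) (h q hq)).symm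

theorem h3_eq (h : ∀ q ∈ (3 * n).primeFactors, Kc (sd j) (Gq q) (u q))
    (h' : ∀ q ∈ (3 * n).primeFactors, u' q ∈ Ll n j q) (e : h3c n co j u = h3c n co j u')
    (hq : q ∈ (3 * n).primeFactors) : u q ∈ Ll n j q := by
  have k := (h q hq).sub (h' q hq).1
  have k1 := h3_zero hc (u := u - u') (j := j) (by rw [map_sub, e, sub_self]) hq
  simpa using add_mem (h3_cb (n := n) k
    ((hc q (Nat.prime_of_mem_primeFactors hq)).det j _ k k1)) (h' q hq)

theorem h3_ker (hn : n ≠ 0) (h : v ∈ h3G n j) (e : h3c n co j (h3k v) = 0) :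
    ∃ x : F3, v = x • h3b j := by
  have k : ∀ q : ℕ, q.Prime → q ∣ 3 * n → Cb j q v := fun q hq hd =>
    (hc q hq).det j v (h.1.mono le_top) (h3_zero hc e ((z1_mem hn hq).2 hd))
  obtain ⟨x, hx⟩ := k 3 Nat.prime_three (dvd_mul_right _ _)
  refine ⟨x, funext fun g => sub_eq_zero.1 (unr (h.1.sub ((Sel.kc (h3b_mem n j)).smul x))
    (fun g hg => sub_eq_zero.2 (hx g hg)) (fun q hq h3 => ?_) g)⟩
  rw [Pi.sub_apply, h3b_sq hq h3, mul_zero, sub_zero]
  by_cases hd : q ∣ 3 * n
  · obtain ⟨y, hy⟩ := k q hq hd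
    exact (hy _ (sq_mem hq h3)).trans (by
      rw [chi_ine hq h3 (sq_ine hq h3), one_pow, sub_self, mul_zero])
  · exact h.2 q hq hd

theorem h3_G (hn : n ≠ 0) (R : Finset ℕ) (hR : ∀ q ∈ R, q.Prime) (hv : ∀ q ∈ R, u q ∈ h3G n j)
    (h1 : ∀ p ∈ R, p ≠ 3 → ∀ q ∈ R, u q (sq p) = if q = p then 1 else 0)
    (h3 : ∀ a y : F3, a • u 3 = y • h3b j → a = 0) :
    R.card ≤ finrank F3 ((h3G n j).map (h3c n co j ∘ₗ h3k)) := by
  have m : ∀ x : R → F3, ∑ q : R, x q • u q ∈ h3G n j := fun x =>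
    Submodule.sum_mem _ fun q _ => Submodule.smul_mem _ _ (hv q q.2)
  have := h3_le (h3c n co j ∘ₗ h3k ∘ₗ Fintype.linearCombination F3 fun q : R => u q)
    ((h3G n j).map (h3c n co j ∘ₗ h3k)) (fun x hx => ?_) fun x => ⟨_, m x, rfl⟩
  · simpa using this
  obtain ⟨y, hy⟩ := h3_ker hc hn (m x) hx
  have k : ∀ p : R, (p : ℕ) ≠ 3 → x p = 0 := fun p hp => by
    have := congrFun hy (sq p)
    rw [Pi.smul_apply, h3b_sq (hR p p.2) hp, smul_zero, Finset.sum_apply,
      sum_eq_single p (fun q _ e => by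
        rw [Pi.smul_apply, h1 p p.2 hp q q.2, if_neg fun e' => e (Subtype.ext e'), smul_zero])
        (by simp), Pi.smul_apply, h1 p p.2 hp p p.2, if_pos rfl] at this
    simpa using this
  funext p
  by_cases hp : (p : ℕ) = 3
  · rw [sum_eq_single p (fun q _ e => by
      rw [k q fun e' => e (Subtype.ext (e'.trans hp.symm)), zero_smul]) (by simp), hp] at hy
    exact h3 _ _ hy
  · exact k p hp

theorem h3_L (l : ℕ → ℕ) (h : ∀ q ∈ (3 * n).primeFactors, Has n j q (l q)) :
    ∑ q ∈ (3 * n).primeFactors, l q ≤ finrank F3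
      ((Submodule.pi ((3 * n).primeFactors : Set ℕ) fun q => Ll n j q).map (h3c n co j)) := by
  choose w h1 h2 using fun q : (3 * n).primeFactors => h q q.2
  let f : (∀ q : (3 * n).primeFactors, Fin (l q) → F3) →ₗ[F3] ℕ → Gam → F3 :=
    LinearMap.pi fun q => if k : q ∈ (3 * n).primeFactors then
      Fintype.linearCombination F3 (w ⟨q, k⟩) ∘ₗ
        LinearMap.proj (φ := fun q : (3 * n).primeFactors => Fin (l q) → F3) ⟨q, k⟩ else 0
  have e : ∀ x q (k : q ∈ (3 * n).primeFactors), f x q = ∑ i, x ⟨q, k⟩ i • w ⟨q, k⟩ i :=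
    fun x q k => by
      simp only [f, LinearMap.pi_apply, dif_pos k]
      rfl
  have m : ∀ x q, q ∈ (3 * n).primeFactors → f x q ∈ Ll n j q := fun x q k => by
    rw [e x q k]
    exact Submodule.sum_mem _ fun i _ => Submodule.smul_mem _ _ (h1 ⟨q, k⟩ i)
  have := h3_le (h3c n co j ∘ₗ f)
    ((Submodule.pi ((3 * n).primeFactors : Set ℕ) fun q => Ll n j q).map (h3c n co j))
    (fun x hx => funext fun q => h2 q _ (e x q q.2 ▸ (hc q (Nat.prime_of_mem_primeFactors q.2)).det
      j _ (m x q q.2).1 (h3_zero hc hx q.2))) fun x => ⟨_, m x, rfl⟩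
  rw [Module.finrank_pi_fintype] at this
  simpa [sum_attach _ l] using this

theorem h3_inf (hn : n ≠ 0) : (h3G n j).map (h3c n co j ∘ₗ h3k) ⊓
    (Submodule.pi ((3 * n).primeFactors : Set ℕ) fun q => Ll n j q).map (h3c n co j) =
      (Sel n j).map (h3c n co j ∘ₗ h3k) := by
  refine le_antisymm ?_ ?_
  · rintro _ ⟨⟨v, hv, rfl⟩, u, hu, e⟩
    exact ⟨v, mem_Sel_of hv.1 hv.2 fun q hq k => h3_eq hc (u := h3k v)
      (fun _ _ => hv.1.mono le_top) hu e.symm ((z1_mem hn hq).2 k), rfl⟩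
  · rintro _ ⟨v, hv, rfl⟩
    exact ⟨⟨v, ⟨Sel.kc hv, fun q hq k => Sel.unr hv hq k⟩, rfl⟩, h3k v, fun q k =>
      Sel.loc hv (Nat.prime_of_mem_primeFactors k) (Nat.dvd_of_mem_primeFactors k), rfl⟩

theorem h3_sel (hn : n ≠ 0) (j : Bool) : finrank F3 (Sel n j) =
    finrank F3 ((Sel n j).map (h3c n co j ∘ₗ h3k)) + cond j 0 1 := by
  have := finite_Sel hn j
  have : Module.Finite F3 (Sel n j) := .of_finite
  have e : LinearMap.ker ((h3c n co j ∘ₗ h3k).domRestrict (Sel n j)) =
      Submodule.span F3 {⟨h3b j, h3b_mem n j⟩} := by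
    refine le_antisymm (fun v hv => ?_) ((Submodule.span_singleton_le_iff_mem _ _).2 ?_)
    · obtain ⟨x, hx⟩ := h3_ker hc hn ⟨Sel.kc v.2, fun q hq k => Sel.unr v.2 hq k⟩ hv
      exact Submodule.mem_span_singleton.2 ⟨x, Subtype.ext hx.symm⟩
    · have k : ∀ q : ℕ, q.Prime → co q j (h3b j) = 0 := fun q hq => by
        cases j
        · rw [h3b_false]
          exact (hc q hq).cob
        · rw [h3b_true, map_zero]
      funext i
      rcases i with q | q
      · exact congrArg Prod.fst (k q (Nat.prime_of_mem_primeFactors q.2))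
      · exact congrArg Prod.snd (k q (Nat.prime_of_mem_primeFactors (mem_filter.1 q.2).1))
  rw [← LinearMap.finrank_range_add_finrank_ker ((h3c n co j ∘ₗ h3k).domRestrict (Sel n j)),
    LinearMap.range_domRestrict, e]
  congr 1
  cases j
  · refine finrank_span_singleton fun k => ?_
    have : h3b false cc = 0 := congrFun (congrArg Subtype.val k) cc
    simp only [h3b_false, chi_cc] at this
    exact absurd this (by decide)
  · rw [Submodule.span_singleton_eq_bot.2 (Subtype.ext h3b_true), finrank_bot]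
    rfl

end

theorem h3_has : Has n j q 0 := ⟨Fin.elim0, fun i => i.elim0, fun _ _ => funext fun i => i.elim0⟩

theorem lone {n : ℕ} (hn : Cf n) : Pt n ∧
    Even (finrank F3 (Sel n false) + finrank F3 (Sel n true) + l0 n +
      (n.primeFactors.filter (· % 3 = 2)).card) := by
  have n0 := hn.1
  have ex : ∀ q : ℕ, ∃ co, q.Prime → Gram q co := fun q => by
    by_cases hq : q.Prime
    · exact (exists_gram hq).imp fun _ h _ => h
    · exact ⟨0, fun h => absurd h hq⟩
  choose co hc using ex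
  obtain ⟨w, w1, w2, g, -, w3⟩ := exists_w9
  have hp : ∀ q ∈ (3 * n).primeFactors, q.Prime := fun q => Nat.prime_of_mem_primeFactors
  have m3 := h3_three n0
  have hd : ∀ q ∈ (3 * n).primeFactors, q ≠ 3 → q ∣ n := fun q hq h3 =>
    ((hp q hq).dvd_mul.1 (Nat.dvd_of_mem_primeFactors hq)).resolve_left fun e =>
      h3 ((Nat.prime_dvd_prime_iff_eq (hp q hq) Nat.prime_three).1 e)
  have h1 : ∀ q ∈ (3 * n).primeFactors, q ≠ 3 → ¬ q % 3 = 2 → q % 3 = 1 := fun q hq h3 h2 => by
    have : ¬ 3 ∣ q := fun e => h3 ((Nat.prime_dvd_prime_iff_eq Nat.prime_three (hp q hq)).1 e).symm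
    omega
  have ne : ∀ {p q : ℕ}, q ∈ (3 * n).primeFactors → ¬ p ∣ 3 * n → p ≠ q := fun hq k e =>
    k (e ▸ Nat.dvd_of_mem_primeFactors hq)
  have G0 := h3_G hc (j := false) (u := kk) n0 _ hp
    (fun q hq => ⟨kc_kk q ⊤, fun p hp' k => e3u_kk (hp q hq) hp' (ne m3 k) (ne hq k)⟩)
    (fun p k h3 q k' => by
      split_ifs with e
      · rw [e, kk_sq_self (hp p k) h3]
      · exact e3u_kk (hp q k') (hp p k) h3 (Ne.symm e))
    fun a y e => (indep_three (j := -y) fun g _ => by
      have := congrFun e g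
      simp only [h3b_false, Pi.smul_apply, smul_eq_mul] at this
      linear_combination this).1
  have G1 := h3_G hc (j := true) (u := fun q => if q = 3 then w else uq q) n0 (h3S n)
    (fun q hq => hp q (mem_filter.1 hq).1)
    (fun q hq => by
      split_ifs with e
      · exact ⟨w1, fun p hp' k => w2 p hp' (ne m3 k)⟩
      · exact ⟨kc_uq q, fun p hp' k => uq_ne hp' (ne m3 k) (ne (mem_filter.1 hq).1 k)⟩)
    (fun p k h3 q k' => by
      obtain ⟨k1, k2⟩ := mem_filter.1 k
      by_cases e : q = p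
      · simp only [e, if_neg h3, if_true]
        exact uq_self (hp p k1) (h1 p k1 h3 k2)
      · rw [if_neg e]
        split_ifs
        · exact w2 p (hp p k1) h3
        · exact uq_ne (hp p k1) h3 (Ne.symm e))
    fun a y e => by
      have := congrFun e g
      simp only [h3b_true, if_true, Pi.smul_apply, smul_eq_mul, Pi.zero_apply, mul_zero] at this
      exact (mul_eq_zero.1 this).resolve_right w3
  have L0 := h3_L hc (j := false) (fun q => if q = 3 then 2 - l0 n else 1) fun q hq => by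
    split_ifs with e
    · exact e ▸ (three_tab hn).2
    · exact has_one hn (hp q hq) e (hd q hq e)
  have L1 := h3_L hc (j := true) (fun q => if q = 3 then l0 n else if ¬ q % 3 = 2 then 1 else 0)
    fun q hq => by
      by_cases e : q = 3
      · simp only [e, if_true]
        exact (three_tab hn).1
      · by_cases e' : q % 3 = 2
        · simp only [if_neg e, e', not_true, if_false]
          exact h3_has
        · simp only [if_neg e, if_pos e']
          exact has_zero hn (hp q hq) (h1 q hq e e') (hd q hq e)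
  rw [← add_sum_erase _ _ m3, if_pos rfl,
    sum_congr rfl fun q hq => if_neg (ne_of_mem_erase hq)] at L0 L1
  rw [sum_const, smul_eq_mul, mul_one] at L0
  rw [← card_filter, filter_erase] at L1
  have c1 := card_erase_add_one m3
  have c2 := card_erase_add_one (s := h3S n) (mem_filter.2 ⟨m3, by decide⟩)
  have c3 := card_filter_add_card_filter_not (s := (3 * n).primeFactors) fun q => q % 3 = 2
  have c4 : (3 * n).primeFactors.filter (fun q => q % 3 = 2) =
      n.primeFactors.filter (· % 3 = 2) := by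
    ext q
    simp only [mem_filter]
    refine and_congr_left fun e => ⟨fun k => Nat.mem_primeFactors.2
      ⟨hp q k, hd q k (by omega), n0⟩, fun k => (z1_mem n0 (Nat.prime_of_mem_primeFactors k)).2
        ((Nat.dvd_of_mem_primeFactors k).mul_left 3)⟩
  have c5 : l0 n ≤ 2 := by
    rw [l0]
    split_ifs <;> omega
  have dV : finrank F3 (H3I n → F3) = (3 * n).primeFactors.card + (h3S n).card := by simp
  obtain ⟨a1, a2, a3, a4⟩ := wiles (dotProductBilin F3 F3) dotProduct_comm dotProduct_eq_zero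
    (fun j => (h3G n j).map (h3c n co j ∘ₗ h3k))
    (fun j => (Submodule.pi ((3 * n).primeFactors : Set ℕ) fun q => Ll n j q).map (h3c n co j))
    (by
      rintro _ ⟨u, hu, rfl⟩ _ ⟨v, hv, rfl⟩
      exact (h3_dot hc (j := true) (u := h3k u) (u' := h3k v) (fun _ _ => hu.1.mono le_top)
        fun _ _ => hv.1.mono le_top).trans (pr_glob (j := true) n0 hu.1 hu.2 hv.1 hv.2))
    (by
      rintro _ ⟨u, hu, rfl⟩ _ ⟨v, hv, rfl⟩
      exact (h3_dot hc (j := true) (fun q k => (hu q k).1) fun q k => (hv q k).1).trans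
        (sum_eq_zero fun q k => lq_orth (j := true) n0 (hp q k) (hu q k) (hv q k)))
    (by omega) (by simp only [h3S] at *; omega)
  refine ⟨fun j u hu h => ?_, ?_⟩
  · have hu' : ∀ q ∈ (3 * n).primeFactors, Kc (sd (!j)) (Gq q) (u q) := fun q k =>
      hu q (hp q k) (Nat.dvd_of_mem_primeFactors k)
    obtain ⟨_, ⟨v, hv, rfl⟩, _, ⟨u', k, rfl⟩, e⟩ := Submodule.mem_sup.1 (a1 j (h3c n co (!j) u) (by
      rw [h3_inf hc n0]
      rintro _ ⟨b, hb, rfl⟩
      exact (h3_dot hc (u' := h3k b) hu' fun _ _ => (Sel.kc hb).mono le_top).trans (h b hb)))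
    exact ⟨v, hv.1, hv.2, fun q hq hq' => h3_eq hc (u := u - h3k v)
      (fun q k => (hu' q k).sub (hv.1.mono le_top)) k (by rw [map_sub, ← e]; simp)
      ((z1_mem n0 hq).2 hq')⟩
  · rw [h3_inf hc n0, h3_inf hc n0] at a4
    rw [h3_sel hc n0 false, h3_sel hc n0 true, ← c4, Nat.even_iff]
    simp only [h3S, cond] at *
    omega

end Pool.Agent.Lib.MP_696deb_nt.CU.CP
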