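import Pool.Agent.Lib.MP_696deb_nt.CP.A5
import Pool.Agent.Lib.MP_696deb_nt.CP.H3

/-! The parity theorem for cube free integers. -/

set_option autoImplicit false

open scoped Classical
open Finset Module

namespace Pool.Agent.Lib.MP_696deb_nt.CU.CP

theorem exists_gro_cf {n : ℕ} (hn : Cf n) :
    ∃ s : ℕ, (Even s ↔ CL.Wp n) ∧ ∀ e, Gro n e ↔ s ≤ e := by
  obtain ⟨h1, h2⟩ := lone hn
  obtain ⟨s, h3, h4⟩ := par hn.1 h1
  refine ⟨s, ?_, h4⟩
  rw [wp_iff hn]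
  simp only [Nat.even_iff] at h2 h3 ⊢
  omega

end Pool.Agent.Lib.MP_696deb_nt.CU.CP
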